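import Pool.Agent.Lib.MP_0b43f8_lc.Grid.Stmts

set_option autoImplicit false

/-!
# Module APX
-/

namespace Pool.Agent.Lib.MP_0b43f8_lc.Grid

open Pool.Agent.Lib.MP_0b43f8_lc Pool.Agent.Lib.PT

theorem expr_pos77 {V : Type} {k : ℕ} (t : Expr V k) : 0 < k := by
  induction t with
  | vert i _ => exact i.pos
  | union _ _ h _ => exact h
  | join _ _ _ _ h => exact h
  | relab _ _ _ h => exact h

theorem stApx_77 (hU : StUpA) (hL : StLoA) (hC : StCwp) (hG : StGG) : StApx := by
  intro n G hn hI
  obtain ⟨hg1, hg2, hg3⟩ := hG (adjM n (matrix G)) n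
  set g := gg (adjM n (matrix G)) n with hg
  have hout : outN (adjM n (matrix G)) n = 52 * max (g + 1) 2 := rfl
  have hge : g ≠ 0 → 2 ≤ g := by
    intro h
    have h1 := hg2 h
    unfold sucA at h1
    rw [Bool.and_eq_true, decide_eq_true_eq] at h1
    exact h1.1
  refine ⟨?_, fun k hk => ?_⟩
  · rw [hout]
    apply hU n (max (g + 1) 2) G hn (le_max_right _ _) hI
    by_contra hcon
    rw [Bool.not_eq_false] at hcon
    have h1 := (hL n (max (g + 1) 2) G hcon).1
    have h2 := hg3 (max (g + 1) 2) (by omega) h1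
    rw [hcon] at h2
    exact Bool.noConfusion h2
  · have hk0 : 0 < k := by
      obtain ⟨t, _⟩ := hk
      exact expr_pos77 t
    rw [hout]
    by_cases h0 : g = 0
    · rw [h0]
      have : max (0 + 1) 2 = 2 := rfl
      omega
    · have h1 := hge h0
      obtain ⟨_, y, hy⟩ := hL n g G (hg2 h0)
      have h2 := hC n g k G y h1 hy hk
      have h3 : max (g + 1) 2 = g + 1 := max_eq_left (by omega)
      omega

end Pool.Agent.Lib.MP_0b43f8_lc.Grid
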