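import Pool.Agent.Lib.MP_0b43f8_lc.Grid.Col66

set_option autoImplicit false

/-! CHN: cheap cuts in all windows give a cheap sweep. -/

namespace Pool.Agent.Lib.MP_0b43f8_lc.Grid

/-- CHN -/
theorem stChn_66 (hS : StSwp) : StChn := by
  classical
  intro q G W c n hmono hgt hG hW hcut
  choose X V H h1 h2 h3 h4 h5 using hcut
  set T : ℕ → ℕ := fun k => Nat.rec 0 (fun _ t => tt q t W) k with hT
  have hTs : ∀ k, T (k + 1) = tt q (T k) W := fun k => rfl
  have hTk : ∀ k, k ≤ T k := by
    intro k
    induction k with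
    | zero => exact Nat.zero_le _
    | succ k ih =>
      rw [hTs]
      have := Col66.le_tt (p := T k) hgt W
      omega
  have key : ∀ k, LinR G (4 * c + 8 * W + 2) (X (T k)) := by
    intro k
    have e : 4 * c + 8 * W + 2 = 4 * c + 4 * (2 * W) + 2 := by ring
    rw [e]
    induction k with
    | zero =>
      refine hS q G 0 (2 * W) c ∅ ∅ ∅ (X 0) (V 0) (H 0) hmono hgt hG (by simp) (by simp) ?_
        ⟨by simp, by simp⟩ (h3 0) (by simp) (by simp) (h4 0) (h5 0) LinR.nil
      refine (h2 0).trans ?_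
      intro x hx
      rw [Finset.mem_range] at hx ⊢
      have := (Col66.tt_strictMono (p := 0) hgt).monotone (show W ≤ 2 * W by omega)
      omega
    | succ k ih =>
      refine hS q G (T k) (2 * W) c (X (T k)) (V (T k)) (H (T k)) (X (T (k + 1))) (V (T (k + 1)))
        (H (T (k + 1))) hmono hgt hG (h1 _) ?_ ?_ (h3 _) (h3 _) (h4 _) (h5 _) (h4 _) (h5 _) ih
      · exact (h2 (T k)).trans (h1 (T (k + 1)))
      · have h6 := h2 (T (k + 1))
        rw [two_mul, Col66.tt_add]
        exact h6
  refine ⟨X (T n), ?_, key n⟩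
  refine Finset.Subset.trans ?_ (h1 (T n))
  intro x hx
  rw [Finset.mem_range] at hx ⊢
  exact hx.trans_le (hTk n)

end Pool.Agent.Lib.MP_0b43f8_lc.Grid
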