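import Pool.Agent.Lib.MP_0b43f8_lc.Grid.Stmts

set_option autoImplicit false

/-!
# CLS: the number of classes of a set with a small cut
-/

namespace Pool.Agent.Lib.MP_0b43f8_lc.Grid

open Pool.Agent.Lib.MP_0b43f8_lc

theorem filt16 (V : Finset ℕ) (p r : ℕ → Prop) [DecidablePred p] [DecidablePred r]
    (h : ∀ x, p x → r x) (hc : (V.filter r).card ≤ (V.filter p).card) :
    ∀ x ∈ V, r x → p x := by
  intro x hx hr
  have h1 : V.filter p ⊆ V.filter r := by
    intro y hy
    rw [Finset.mem_filter] at hy ⊢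
    exact ⟨hy.1, h y hy.2⟩
  have h2 := Finset.eq_of_subset_of_card_le h1 hc
  have h3 : x ∈ V.filter r := Finset.mem_filter.2 ⟨hx, hr⟩
  rw [← h2, Finset.mem_filter] at h3
  exact h3.2

theorem filtle16 (V : Finset ℕ) (p r : ℕ → Prop) [DecidablePred p] [DecidablePred r]
    (h : ∀ x, p x → r x) : (V.filter p).card ≤ (V.filter r).card := by
  apply Finset.card_le_card
  intro y hy
  rw [Finset.mem_filter] at hy ⊢
  exact ⟨hy.1, h y hy.2⟩

/-- The changes from `A` to the outside. -/
def vm1 (A V : Finset ℕ) : Finset ℕ := V.filter fun v => v ∈ A ∧ v + 1 ∉ A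

/-- The value of a vertex. -/
def phi16 (q : ℕ → ℕ) (A V H : Finset ℕ) (u : ℕ) : ℕ :=
  ((vm1 A V).filter (· < u)).card + ((vm1 A V).filter (· < q u)).card +
    ((H.filter (· ∈ A)).filter (· ≤ u)).card + ((H.filter (· ∉ A)).filter (· < q u)).card

theorem const16 {A V : Finset ℕ} (hV : ∀ v, ¬ (v ∈ A ↔ v + 1 ∈ A) → v ∈ V) {a b : ℕ}
    (h : ∀ v ∈ vm1 A V, a ≤ v → v < b → False) (ha : a ∈ A) :
    ∀ x, a ≤ x → x ≤ b → x ∈ A := by
  intro x hax
  induction x, hax using Nat.le_induction with
  | base => intro _; exact ha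
  | succ x hax ih =>
    intro hxb
    have h1 := ih (by omega)
    by_contra h2
    refine h x (Finset.mem_filter.2 ⟨hV x fun h3 => h2 (h3.1 h1), h1, h2⟩) hax (by omega)

theorem same16 {q : ℕ → ℕ} {G : SimpleGraph ℕ} {A V H : Finset ℕ} (hm : ∀ i j, i ≤ j → q i ≤ q j)
    (hG : IsG q G) (hC : Cut q A V H) {u u' : ℕ} (hu : u ∈ A) (hu' : u' ∈ A) (huu : u < u')
    (he : phi16 q A V H u = phi16 q A V H u') (w : ℕ) (hw : w ∉ A) :
    G.Adj u w ↔ G.Adj u' w := by
  have hq := hm u u' (le_of_lt huu)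
  have e1 := filtle16 (vm1 A V) (· < u) (· < u') (fun x hx => by omega)
  have e2 := filtle16 (vm1 A V) (· < q u) (· < q u') (fun x hx => by omega)
  have e3 := filtle16 (H.filter (· ∈ A)) (· ≤ u) (· ≤ u') (fun x hx => by omega)
  have e4 := filtle16 (H.filter (· ∉ A)) (· < q u) (· < q u') (fun x hx => by omega)
  unfold phi16 at he
  have f1 := filt16 (vm1 A V) (· < u) (· < u') (fun x hx => by omega) (by omega)
  have f2 := filt16 (vm1 A V) (· < q u) (· < q u') (fun x hx => by omega) (by omega)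
  have f3 := filt16 (H.filter (· ∈ A)) (· ≤ u) (· ≤ u') (fun x hx => by omega) (by omega)
  have f4 := filt16 (H.filter (· ∉ A)) (· < q u) (· < q u') (fun x hx => by omega) (by omega)
  have c1 := const16 hC.1 (a := u) (b := u') (fun v hv h1 h2 => by
    have := f1 v hv h2; omega) hu
  have c2 := const16 hC.1 (a := q u) (b := q u') (fun v hv h1 h2 => by
    have := f2 v hv h2; omega)
  have hwu : w ≠ u := fun h => hw (h ▸ hu)
  have hwu' : w ≠ u' := fun h => hw (h ▸ hu')
  rcases Nat.lt_or_ge w u with h1 | h1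
  · rw [G.adj_comm u w, G.adj_comm u' w, hG w u h1, hG w u' (by omega)]
    constructor
    · intro h2
      by_contra h3
      have h4 : q w ∈ A := c1 (q w) (by omega) (by omega)
      have h5 := hC.2 w (fun h => hw (h.2 h4))
      have h6 := f3 _ (Finset.mem_filter.2 ⟨h5, h4⟩) (by omega)
      omega
    · intro h2; omega
  · rcases Nat.lt_or_ge u' w with h2 | h2
    · rw [hG u w (by omega), hG u' w h2]
      constructor
      · intro h3; omega
      · intro h3
        by_contra h4
        have h6 : q u ∉ A := fun h => hw (c2 h w (by omega) (by omega))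
        have h7 := hC.2 u (fun h => h6 (h.1 hu))
        have h8 := f4 _ (Finset.mem_filter.2 ⟨h7, h6⟩) (by omega)
        omega
    · exact absurd (c1 w h1 h2) hw

/-- changes into `A` and out of `A` alternate -/
theorem alt1 (A : Finset ℕ) (N : ℕ) :
    ((Finset.range N).filter fun v => v ∈ A ∧ v + 1 ∉ A).card + (if N ∈ A then 1 else 0) =
    ((Finset.range N).filter fun v => v ∉ A ∧ v + 1 ∈ A).card + (if 0 ∈ A then 1 else 0) := by
  induction N with
  | zero => simp
  | succ N ih =>
    rw [Finset.range_add_one, Finset.filter_insert, Finset.filter_insert]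
    have n1 : N ∉ (Finset.range N).filter fun v => v ∈ A ∧ v + 1 ∉ A := by simp
    have n2 : N ∉ (Finset.range N).filter fun v => v ∉ A ∧ v + 1 ∈ A := by simp
    by_cases h1 : N ∈ A <;> by_cases h2 : N + 1 ∈ A <;>
      simp only [h1, h2, not_true, not_false_iff, and_true, and_false, and_self, if_true, if_false, Finset.card_insert_of_notMem n1,
        Finset.card_insert_of_notMem n2] at ih ⊢ <;> omega

theorem card_vm1 {A V : Finset ℕ} (hV : ∀ v, ¬ (v ∈ A ↔ v + 1 ∈ A) → v ∈ V) :
    2 * (vm1 A V).card ≤ V.card + 1 := by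
  classical
  obtain ⟨N, hN⟩ : ∃ N, ∀ v ∈ A, v < N := by
    refine ⟨A.sup id + 1, fun v hv => ?_⟩
    have := Finset.le_sup (f := id) hv
    simp only [id] at this
    omega
  have h1 := alt1 A N
  have h2 : N ∉ A := fun h => absurd (hN N h) (lt_irrefl N)
  rw [if_neg h2] at h1
  have h3 : vm1 A V ⊆ (Finset.range N).filter fun v => v ∈ A ∧ v + 1 ∉ A := by
    intro v hv
    unfold vm1 at hv
    rw [Finset.mem_filter] at hv ⊢
    exact ⟨Finset.mem_range.2 (hN v hv.2.1), hv.2⟩
  have h4 : ((Finset.range N).filter fun v => v ∉ A ∧ v + 1 ∈ A) ⊆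
      V.filter fun v => ¬ (v ∈ A ∧ v + 1 ∉ A) := by
    intro v hv
    rw [Finset.mem_filter] at hv ⊢
    exact ⟨hV v fun h => hv.2.1 (h.2 hv.2.2), fun h => hv.2.1 h.1⟩
  have h5 := Finset.card_le_card h3
  have h6 := Finset.card_le_card h4
  have h7 := Finset.card_filter_add_card_filter_not (s := V) (fun v => v ∈ A ∧ v + 1 ∉ A)
  have h8 : (if 0 ∈ A then 1 else 0) ≤ 1 := by split_ifs <;> omega
  unfold vm1 at *
  omega

/-- CLS -/
theorem stCls_16 : StCls := by
  classical
  intro q G A V H hm hgt hG hC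
  unfold cls
  set N : ℕ → Set ℕ := fun u => {w : ℕ | w ∉ A ∧ G.Adj u w} with hN
  have hsame : ∀ u ∈ A, ∀ u' ∈ A, phi16 q A V H u = phi16 q A V H u' → N u = N u' := by
    intro u hu u' hu' he
    have hset : (∀ w, w ∉ A → (G.Adj u w ↔ G.Adj u' w)) → N u = N u' := by
      intro h
      ext w
      rw [hN]
      simp only [Set.mem_ofPred_eq]
      constructor
      · rintro ⟨h1, h2⟩; exact ⟨h1, (h w h1).1 h2⟩
      · rintro ⟨h1, h2⟩; exact ⟨h1, (h w h1).2 h2⟩
    rcases lt_trichotomy u u' with h | h | h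
    · exact hset (fun w hw => same16 hm hG hC hu hu' h he w hw)
    · rw [h]
    · exact hset (fun w hw => (same16 hm hG hC hu' hu h he.symm w hw).symm)
  have hle : ∀ u, phi16 q A V H u ≤ V.card + 1 + H.card := by
    intro u
    unfold phi16
    have h1 := Finset.card_filter_le (vm1 A V) (· < u)
    have h2 := Finset.card_filter_le (vm1 A V) (· < q u)
    have h3 := Finset.card_filter_le (H.filter (· ∈ A)) (· ≤ u)
    have h4 := Finset.card_filter_le (H.filter (· ∉ A)) (· < q u)
    have h5 := card_vm1 hC.1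
    have h6 := Finset.card_filter_add_card_filter_not (s := H) (· ∈ A)
    omega
  set g : ℕ → Set ℕ := fun c => if h : ∃ u, u ∈ A ∧ phi16 q A V H u = c then N h.choose else ∅
    with hg
  have hNg : ∀ u ∈ A, N u = g (phi16 q A V H u) := by
    intro u hu
    have h : ∃ u', u' ∈ A ∧ phi16 q A V H u' = phi16 q A V H u := ⟨u, hu, rfl⟩
    rw [hg]
    simp only
    rw [dif_pos h]
    exact hsame u hu _ h.choose_spec.1 h.choose_spec.2.symm
  have hsub : A.image N ⊆ (Finset.range (V.card + H.card + 2)).image g := by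
    intro S hS
    rw [Finset.mem_image] at hS ⊢
    obtain ⟨u, hu, hS⟩ := hS
    exact ⟨phi16 q A V H u, Finset.mem_range.2 (by have := hle u; omega), by
      rw [← hNg u hu, hS]⟩
  calc (A.image N).card ≤ ((Finset.range (V.card + H.card + 2)).image g).card :=
        Finset.card_le_card hsub
    _ ≤ (Finset.range (V.card + H.card + 2)).card := Finset.card_image_le
    _ = _ := Finset.card_range _

end Pool.Agent.Lib.MP_0b43f8_lc.Grid
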