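import Pool.Agent.Lib.MP_0b43f8_lc.Grid.Stmts

set_option autoImplicit false

/-! COL: the columns. -/

namespace Pool.Agent.Lib.MP_0b43f8_lc.Grid

namespace Col66

variable {q : ℕ → ℕ} {p : ℕ}

theorem tt_lt (h : ∀ v, v < q v) (j : ℕ) : tt q p j < tt q p (j + 1) := h _

theorem tt_strictMono (h : ∀ v, v < q v) : StrictMono (tt q p) :=
  strictMono_nat_of_lt_succ (tt_lt h)

theorem le_tt (h : ∀ v, v < q v) (j : ℕ) : p + j ≤ tt q p j := by
  induction j with
  | zero => exact le_rfl
  | succ j ih =>
    have := tt_lt (p := p) h j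
    omega

theorem tt_add (q : ℕ → ℕ) (t a b : ℕ) : tt q t (a + b) = tt q (tt q t a) b := by
  induction b with
  | zero => rfl
  | succ b ih =>
    show q (tt q t (a + b)) = q (tt q (tt q t a) b)
    rw [ih]

theorem exists_col (h : ∀ v, v < q v) {x : ℕ} (hx : p ≤ x) :
    ∃ j, tt q p j ≤ x ∧ x < tt q p (j + 1) := by
  have h1 : ∃ j, x < tt q p (j + 1) := ⟨x, by
    have := le_tt (p := p) h (x + 1)
    omega⟩
  classical
  refine ⟨Nat.find h1, ?_, Nat.find_spec h1⟩
  rcases hj : Nat.find h1 with _ | j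
  · exact hx
  · have := Nat.find_min h1 (m := j) (by omega)
    omega

end Col66

open Col66 in
/-- COL -/
theorem stCol_66 : StCol := by
  intro q p m hmono h
  have h1 : ∀ x, ∃ j, p ≤ x → tt q p j ≤ x ∧ x < tt q p (j + 1) := by
    intro x
    by_cases hx : p ≤ x
    · obtain ⟨j, hj⟩ := exists_col (p := p) h hx
      exact ⟨j, fun _ => hj⟩
    · exact ⟨0, fun h => absurd h hx⟩
  choose col hcol using h1
  have hm := tt_strictMono (p := p) h
  have huniq : ∀ x, p ≤ x → ∀ j, x < tt q p (j + 1) → col x ≤ j := by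
    intro x hx j hj
    by_contra hlt
    have h2 := (hcol x hx).1
    have h3 := hm.monotone (show j + 1 ≤ col x by omega)
    omega
  have huniq' : ∀ x, p ≤ x → ∀ j, tt q p j ≤ x → j ≤ col x := by
    intro x hx j hj
    by_contra hlt
    have h2 := (hcol x hx).2
    have h3 := hm.monotone (show col x + 1 ≤ j by omega)
    omega
  refine ⟨col, ?_, ?_, ?_, ?_⟩
  · intro x y hx hxy
    exact huniq' y (hx.trans hxy) _ ((hcol x hx).1.trans hxy)
  · intro x y hx hxy hy
    refine huniq y (hx.trans hxy) _ ?_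
    show y < q (tt q p (col x + 1))
    exact hy.trans_le (hmono _ _ (hcol x hx).2.le)
  · intro x hx
    have h2 := hcol x hx
    have h3 : tt q p (col x + 1) ≤ q x := hmono _ _ h2.1
    have h4 : q x ≤ tt q p (col x + 2) := hmono _ _ h2.2.le
    have h5 : p ≤ q x := hx.trans (h x).le
    rcases Nat.lt_or_ge (q x) (tt q p (col x + 2)) with h6 | h6
    · left
      exact le_antisymm (huniq _ h5 _ h6) (huniq' _ h5 _ h3)
    · right
      intro y hy hyq
      have h7 := huniq y hy (col x + 1) (by
        show y < tt q p (col x + 2)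
        omega)
      have h8 := huniq' (q x) h5 (col x + 2) h6
      omega
  · intro x hx hxm
    by_contra hlt
    have h2 := (hcol x hx).1
    have h3 := hm.monotone (show m ≤ col x by omega)
    omega

end Pool.Agent.Lib.MP_0b43f8_lc.Grid
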