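import Pool.Agent.Lib.MP_0b43f8_lc.Grid.Stmts

set_option autoImplicit false

/-! CUT: if a strand fails, there is a cheap cut. -/

namespace Pool.Agent.Lib.MP_0b43f8_lc.Grid

namespace C1

section basic

variable {q el : ℕ → ℕ} {t : ℕ}

theorem u1 (i j : ℕ) : q (st q el t i j) ≤ st q el t i (j + 1) := by
  cases i with
  | zero => exact le_rfl
  | succ i => exact le_max_right _ _

theorem elst (i j : ℕ) : el (st q el t i (j + 1)) ≤ st q el t (i + 1) j := by
  cases j with
  | zero => exact le_rfl
  | succ j => exact le_max_left _ _

theorem u3 (h : QE q el) (i j : ℕ) : st q el t i (j + 1) < q (st q el t (i + 1) j) :=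
  (h.gal _ _).1 (elst i j)

theorem u2 (h : QE q el) (i j : ℕ) : st q el t i j < st q el t (i + 1) j := by
  have h1 : ¬ el (st q el t i (j + 1)) ≤ st q el t i j := by
    rw [h.gal, not_lt]
    exact u1 i j
  have h2 := elst (q := q) (el := el) (t := t) i j
  omega

theorem ttlt (h : QE q el) (j : ℕ) : tt q t j < tt q t (j + 1) := h.gt _

theorem ttmono (h : QE q el) : StrictMono (tt q t) := strictMono_nat_of_lt_succ (ttlt h)

theorem exists_col (h : QE q el) {x : ℕ} (hx : t ≤ x) :
    ∃ j, tt q t j ≤ x ∧ x < tt q t (j + 1) := by
  have h0 : ∀ j, t + j ≤ tt q t j := by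
    intro j
    induction j with
    | zero => exact le_rfl
    | succ j ih =>
      have := ttlt (t := t) h j
      omega
  have h1 : ∃ j, x < tt q t (j + 1) := ⟨x, by
    have := h0 (x + 1)
    omega⟩
  classical
  refine ⟨Nat.find h1, ?_, Nat.find_spec h1⟩
  rcases hj : Nat.find h1 with _ | j
  · exact hx
  · have := Nat.find_min h1 (m := j) (by omega)
    omega

theorem col_uniq (h : QE q el) {x i j : ℕ} (h1 : tt q t i ≤ x) (h2 : x < tt q t (i + 1))
    (h3 : tt q t j ≤ x) (h4 : x < tt q t (j + 1)) : i = j := by
  have hm := ttmono (t := t) h
  by_contra hne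
  rcases Nat.lt_or_gt_of_ne hne with hl | hl
  · have := hm.monotone (show i + 1 ≤ j by omega)
    omega
  · have := hm.monotone (show j + 1 ≤ i by omega)
    omega

open Classical in
/-- The band of `v` in column `j`. -/
noncomputable def bd (q el : ℕ → ℕ) (t F j v : ℕ) : ℕ :=
  Nat.find (⟨F + 1, Or.inl rfl⟩ : ∃ i, i = F + 1 ∨ v ≤ st q el t i j)

theorem bd_le {F j v : ℕ} : bd q el t F j v ≤ F + 1 := by
  classical
  exact Nat.find_min' _ (Or.inl rfl)

theorem bd_le' {F j v i : ℕ} (h : v ≤ st q el t i j) : bd q el t F j v ≤ i := by
  classical
  exact Nat.find_min' _ (Or.inr h)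

theorem lt_of_lt_bd {F j v i : ℕ} (h : i < bd q el t F j v) : st q el t i j < v := by
  classical
  by_contra hlt
  have := bd_le' (q := q) (el := el) (t := t) (F := F) (j := j) (v := v) (i := i) (by omega)
  omega

theorem bd_spec (F j v : ℕ) : bd q el t F j v = F + 1 ∨ v ≤ st q el t (bd q el t F j v) j := by
  classical
  exact Nat.find_spec (⟨F + 1, Or.inl rfl⟩ : ∃ i, i = F + 1 ∨ v ≤ st q el t i j)

/-- tight places -/
def Tg (q el : ℕ → ℕ) (t i j : ℕ) : Prop := i = 0 ∨ st q el t i j = el (st q el t (i - 1) (j + 1))

theorem tg_zero (i : ℕ) : Tg q el t i 0 := by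
  cases i with
  | zero => exact Or.inl rfl
  | succ i => exact Or.inr rfl

theorem of_not_tg {i j : ℕ} (h : ¬ Tg q el t i j) : 1 ≤ j ∧ st q el t i j = q (st q el t i (j - 1)) := by
  unfold Tg at h
  rw [not_or] at h
  obtain ⟨h1, h2⟩ := h
  obtain ⟨i, rfl⟩ : ∃ i', i = i' + 1 := ⟨i - 1, by omega⟩
  cases j with
  | zero => exact absurd rfl h2
  | succ j =>
    refine ⟨by omega, ?_⟩
    simp only [Nat.add_sub_cancel] at h2 ⊢
    have h3 : st q el t (i + 1) (j + 1) = max (el (st q el t i (j + 2))) (q (st q el t (i + 1) j)) :=
      rfl
    rcases le_total (el (st q el t i (j + 2))) (q (st q el t (i + 1) j)) with h4 | h4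
    · rw [h3, max_eq_right h4]
    · exact absurd (by rw [h3, max_eq_left h4]) h2

open Classical in
/-- The last tight column up to `x`. -/
noncomputable def tau (q el : ℕ → ℕ) (t i x : ℕ) : ℕ := Nat.findGreatest (Tg q el t i) x

theorem tau_le (i x : ℕ) : tau q el t i x ≤ x := by
  classical
  exact Nat.findGreatest_le x

theorem tau_tg (i x : ℕ) : Tg q el t i (tau q el t i x) := by
  classical
  exact Nat.findGreatest_spec (P := Tg q el t i) (Nat.zero_le x) (tg_zero i)

theorem not_tg {i x j : ℕ} (h1 : tau q el t i x < j) (h2 : j ≤ x) : ¬ Tg q el t i j := by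
  classical
  exact Nat.findGreatest_is_greatest h1 h2

/-- The numbers `c`, from the right end. -/
noncomputable def cd (q el : ℕ → ℕ) (t F j0 : ℕ) : ℕ → ℕ
  | 0 => j0
  | d + 1 => tau q el t (F - d) (cd q el t F j0 d) + 1

theorem exists_c (q el : ℕ → ℕ) (t F j0 : ℕ) : ∃ c : ℕ → ℕ, c (F + 1) = j0 ∧
    ∀ i, i ≤ F → c i = tau q el t i (c (i + 1)) + 1 := by
  refine ⟨fun i => cd q el t F j0 (F + 1 - i), ?_, ?_⟩
  · simp [cd]
  · intro i hi
    have h1 : F + 1 - i = (F - i) + 1 := by omega
    have h2 : F + 1 - (i + 1) = F - i := by omega
    have h3 : F - (F - i) = i := by omega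
    simp only [h1, h2, cd, h3]

end basic

section main

variable {q el : ℕ → ℕ} {t F j0 : ℕ} {c : ℕ → ℕ}

/-- The set. -/
def InX (q el : ℕ → ℕ) (t F : ℕ) (c : ℕ → ℕ) (v : ℕ) : Prop :=
  v < t ∨ ∃ j, tt q t j ≤ v ∧ v < tt q t (j + 1) ∧ j < c (bd q el t F j v)

theorem inX_iff (h : QE q el) {v j : ℕ} (h1 : tt q t j ≤ v) (h2 : v < tt q t (j + 1)) :
    InX q el t F c v ↔ j < c (bd q el t F j v) := by
  constructor
  · rintro (h3 | ⟨i, h3, h4, h5⟩)
    · have := (ttmono (t := t) h).monotone (Nat.zero_le j)
      change t ≤ _ at this
      omega
    · have := col_uniq h h1 h2 h3 h4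
      subst this
      exact h5
  · intro h3
    exact Or.inr ⟨j, h1, h2, h3⟩

open Classical in
/-- The points of the path. -/
noncomputable def PP (q el : ℕ → ℕ) (t F : ℕ) (c : ℕ → ℕ) : Finset ℕ :=
  (Finset.range (F + 1)).biUnion fun i => (Finset.Icc (c i) (c (i + 1))).image fun j =>
    st q el t i j

theorem mem_PP {i j : ℕ} (h1 : i ≤ F) (h2 : c i ≤ j) (h3 : j ≤ c (i + 1)) :
    st q el t i j ∈ PP q el t F c := by
  classical
  refine Finset.mem_biUnion.2 ⟨i, Finset.mem_range.2 (by omega), ?_⟩
  exact Finset.mem_image.2 ⟨j, Finset.mem_Icc.2 ⟨h2, h3⟩, rfl⟩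

theorem card_PP (hc1 : ∀ i, i ≤ F → c i ≤ c (i + 1) + 1) :
    (PP q el t F c).card ≤ c (F + 1) + (F + 1) := by
  classical
  have h1 : (PP q el t F c).card ≤ ∑ i ∈ Finset.range (F + 1), (c (i + 1) + 1 - c i) := by
    refine Finset.card_biUnion_le.trans (Finset.sum_le_sum fun i _ => ?_)
    refine Finset.card_image_le.trans ?_
    rw [Nat.card_Icc]
  have h2 : ∀ m, m ≤ F + 1 → ∑ i ∈ Finset.range m, (c (i + 1) + 1 - c i) + c 0 = c m + m := by
    intro m
    induction m with
    | zero => intro _; simp
    | succ m ih =>
      intro hm
      have h3 := ih (by omega)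
      have h4 := hc1 m (by omega)
      rw [Finset.sum_range_succ]
      omega
  have h3 := h2 (F + 1) le_rfl
  omega

end main

end C1

open C1 in
theorem stCut_1 : StCut := by
  classical
  intro q el t F J h hfail
  have hf1 : ∃ j, tt q t (j + 1) ≤ st q el t F j := by
    obtain ⟨j, _, hj⟩ := hfail
    exact ⟨j, hj⟩
  obtain ⟨j0, hj0J, hj0, hmin⟩ : ∃ j0, j0 ≤ J ∧ tt q t (j0 + 1) ≤ st q el t F j0 ∧
      ∀ j, j < j0 → st q el t F j < tt q t (j + 1) := by
    obtain ⟨j, hjJ, hj⟩ := hfail
    refine ⟨Nat.find hf1, (Nat.find_min' hf1 hj).trans hjJ, Nat.find_spec hf1, ?_⟩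
    intro i hi
    have := Nat.find_min hf1 hi
    omega
  obtain ⟨c, hcF, hc⟩ := exists_c q el t F j0
  have hc1 : ∀ i, i ≤ F → c i ≤ c (i + 1) + 1 := by
    intro i hi
    rw [hc i hi]
    have := tau_le (q := q) (el := el) (t := t) i (c (i + 1))
    omega
  have hcpos : ∀ i, i ≤ F → 1 ≤ c i := by
    intro i hi
    rw [hc i hi]
    omega
  have hc2 : ∀ i, i ≤ F → ∀ j, c i ≤ j → j ≤ c (i + 1) →
      1 ≤ j ∧ st q el t i j = q (st q el t i (j - 1)) := by
    intro i hi j h1 h2
    rw [hc i hi] at h1
    exact of_not_tg (not_tg (x := c (i + 1)) (by omega) h2)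
  have hc3 : ∀ i, i ≤ F → Tg q el t i (c i - 1) := by
    intro i hi
    rw [hc i hi, Nat.add_sub_cancel]
    exact tau_tg _ _
  set M := J + F + 1 with hM
  have hcM : ∀ i, i ≤ F + 1 → c i + i ≤ j0 + (F + 1) := by
    intro i
    induction hd : F + 1 - i generalizing i with
    | zero =>
      intro hi
      have : i = F + 1 := by omega
      subst this
      omega
    | succ d ih =>
      intro hi
      have h1 := ih (i + 1) (by omega) (by omega)
      have h2 := hc1 i (by omega)
      omega
  have hcM' : ∀ i, i ≤ F + 1 → c i ≤ M := by
    intro i hi
    have := hcM i hi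
    omega
  have hmono := ttmono (q := q) (t := t) h
  have hXlt : ∀ v, InX q el t F c v → v < tt q t M := by
    intro v hv
    rcases hv with hv | ⟨j, _, h2, h3⟩
    · have := hmono.monotone (Nat.zero_le M)
      change t ≤ _ at this
      omega
    · have h4 := hcM' _ (bd_le (q := q) (el := el) (t := t) (F := F) (j := j) (v := v))
      have := hmono.monotone (show j + 1 ≤ M by omega)
      omega
  set X := (Finset.range (tt q t M)).filter fun v => InX q el t F c v with hX
  have hmem : ∀ v, v ∈ X ↔ InX q el t F c v := by
    intro v
    rw [hX, Finset.mem_filter, Finset.mem_range]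
    exact ⟨fun h => h.2, fun h => ⟨hXlt v h, h⟩⟩
  have hcolM : ∀ j v, tt q t j ≤ v → v ∈ X → j < M := by
    intro j v h1 h2
    have h3 := hXlt v ((hmem v).1 h2)
    by_contra h4
    have := hmono.monotone (show M ≤ j by omega)
    omega
  refine ⟨X, ((Finset.range (M + 2)).image fun j => tt q t j - 1) ∪ (PP q el t F c ∪
    (Finset.range (F + 1)).image fun i => st q el t i (c i - 1)),
    ((Finset.range (M + 2)).image fun j => tt q t j) ∪ (PP q el t F c ∪
    (Finset.range (F + 1)).image fun i => q (st q el t i (c i - 1))), ?_, ?_, ⟨?_, ?_⟩, ?_, ?_⟩
  · intro v hv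
    exact (hmem v).2 (Or.inl (Finset.mem_range.1 hv))
  · exact Finset.filter_subset _ _
  · -- changes
    intro v hv
    rcases Nat.lt_or_ge v t with hvt | hvt
    · rcases Nat.lt_or_ge (v + 1) t with hvt' | hvt'
      · exact absurd ⟨fun _ => (hmem _).2 (Or.inl hvt'), fun _ => (hmem _).2 (Or.inl hvt)⟩ hv
      · refine Finset.mem_union_left _ (Finset.mem_image.2 ⟨0, Finset.mem_range.2 (by omega), ?_⟩)
        change t - 1 = v
        omega
    · obtain ⟨j, hj1, hj2⟩ := exists_col h hvt
      by_cases hend : v + 1 = tt q t (j + 1)
      · refine Finset.mem_union_left _ (Finset.mem_image.2 ⟨j + 1, Finset.mem_range.2 ?_, by omega⟩)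
        by_cases h1 : v ∈ X
        · have := hcolM j v hj1 h1
          omega
        · have h2 : v + 1 ∈ X := by
            by_contra h3
            exact hv ⟨fun h => absurd h h1, fun h => absurd h h3⟩
          have := hcolM (j + 1) (v + 1) hend.ge h2
          omega
      · have h1 := inX_iff (F := F) (c := c) h hj1 hj2
        have h2 := inX_iff (q := q) (el := el) (t := t) (F := F) (c := c) h (v := v + 1) (j := j) (by omega)
          (by omega)
        rw [hmem, hmem, h1, h2] at hv
        have hi := bd_spec (q := q) (el := el) (t := t) F j v
        have hi' := bd_spec (q := q) (el := el) (t := t) F j (v + 1)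
        have hle := bd_le (q := q) (el := el) (t := t) (F := F) (j := j) (v := v)
        have hle' := bd_le (q := q) (el := el) (t := t) (F := F) (j := j) (v := v + 1)
        have hlt := fun i => lt_of_lt_bd (q := q) (el := el) (t := t) (F := F) (j := j) (v := v)
          (i := i)
        have hlt' := fun i => lt_of_lt_bd (q := q) (el := el) (t := t) (F := F) (j := j)
          (v := v + 1) (i := i)
        have hmin1 := fun i => bd_le' (q := q) (el := el) (t := t) (F := F) (j := j) (v := v)
          (i := i)
        have hmin1' := fun i => bd_le' (q := q) (el := el) (t := t) (F := F) (j := j)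
          (v := v + 1) (i := i)
        generalize bd q el t F j v = i at *
        generalize bd q el t F j (v + 1) = i' at *
        have hii : i < i' := by
          rcases Nat.lt_trichotomy i i' with h3 | h3 | h3
          · exact h3
          · subst h3
            exact absurd Iff.rfl hv
          · have h4 := hlt i' h3
            rcases hi' with h5 | h5
            · omega
            · omega
        have h3 := hlt' i hii
        have h4 : v = st q el t i j := by
          rcases hi with h5 | h5
          · omega
          · omega
        have h5 : i' = i + 1 := by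
          by_contra h6
          have h7 := hlt' (i + 1) (by omega)
          have h8 := u2 (q := q) (el := el) (t := t) h i j
          omega
        subst h5
        have hiF : i ≤ F := by omega
        by_cases h6 : j < c i
        · have h7 : c (i + 1) ≤ j := by
            by_contra h8
            exact hv ⟨fun _ => by omega, fun _ => h6⟩
          have h8 := hc1 i hiF
          refine Finset.mem_union_right _ (Finset.mem_union_right _ (Finset.mem_image.2
            ⟨i, Finset.mem_range.2 (by omega), ?_⟩))
          have h9 : c i - 1 = j := by omega
          simp only [h9]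
          exact h4.symm
        · have h7 : j < c (i + 1) := by
            by_contra h8
            exact hv ⟨fun h => absurd h h6, fun h => absurd h h8⟩
          refine Finset.mem_union_right _ (Finset.mem_union_left _ ?_)
          rw [h4]
          exact mem_PP hiF (by omega) (by omega)
  · -- hyperedges
    intro v hv
    rcases Nat.lt_or_ge v t with hvt | hvt
    · have hvX : v ∈ X := (hmem v).2 (Or.inl hvt)
      have hqX : q v ∉ X := fun h => hv ⟨fun _ => h, fun _ => hvX⟩
      have hq1 : q v ≤ tt q t 1 := h.mono v t (by omega)
      have hq0 : t ≤ q v := by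
        by_contra h1
        exact hqX ((hmem _).2 (Or.inl (by omega)))
      by_cases hq2 : q v = tt q t 1
      · exact Finset.mem_union_left _ (Finset.mem_image.2 ⟨1, Finset.mem_range.2 (by omega),
          hq2.symm⟩)
      · exfalso
        have h1 := inX_iff (q := q) (el := el) (t := t) (F := F) (c := c) h (v := q v) (j := 0) hq0
          (by change q v < tt q t 1; omega)
        rw [hmem, h1] at hqX
        have hle := bd_le (q := q) (el := el) (t := t) (F := F) (j := 0) (v := q v)
        by_cases h2 : bd q el t F 0 (q v) ≤ F
        · have := hcpos _ h2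
          omega
        · have h3 : bd q el t F 0 (q v) = F + 1 := by omega
          have h4 := lt_of_lt_bd (q := q) (el := el) (t := t) (F := F) (j := 0) (v := q v) (i := F)
            (by omega)
          rw [h3, hcF] at hqX
          have h5 : j0 = 0 := by omega
          rw [h5] at hj0
          simp only [zero_add] at hj0
          omega
    · obtain ⟨j, hj1, hj2⟩ := exists_col h hvt
      have hq1 : tt q t (j + 1) ≤ q v := h.mono _ _ hj1
      have hq2 : q v ≤ tt q t (j + 2) := h.mono _ _ hj2.le
      by_cases hq3 : q v = tt q t (j + 2)
      · refine Finset.mem_union_left _ (Finset.mem_image.2 ⟨j + 2, Finset.mem_range.2 ?_,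
          hq3.symm⟩)
        by_cases h1 : v ∈ X
        · have := hcolM j v hj1 h1
          omega
        · have h2 : q v ∈ X := by
            by_contra h3
            exact hv ⟨fun h => absurd h h1, fun h => absurd h h3⟩
          have := hcolM (j + 2) (q v) hq3.ge h2
          omega
      · have h1 := inX_iff (F := F) (c := c) h hj1 hj2
        have h2 := inX_iff (F := F) (c := c) h (v := q v) (j := j + 1) hq1 (by
          change q v < tt q t (j + 2)
          omega)
        have hvM := hcolM j v hj1
        have hqM := hcolM (j + 1) (q v) hq1
        by_cases hvX : v ∈ X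
        · have hjM := hvM hvX
          have hqX : q v ∉ X := fun h => hv ⟨fun _ => h, fun _ => hvX⟩
          rw [hmem, h1] at hvX
          rw [hmem, h2] at hqX
          have hi := bd_spec (q := q) (el := el) (t := t) F j v
          have hi' := bd_spec (q := q) (el := el) (t := t) F (j + 1) (q v)
          have hle := bd_le (q := q) (el := el) (t := t) (F := F) (j := j) (v := v)
          have hle' := bd_le (q := q) (el := el) (t := t) (F := F) (j := j + 1) (v := q v)
          have hlt := fun i => lt_of_lt_bd (q := q) (el := el) (t := t) (F := F) (j := j) (v := v)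
            (i := i)
          have hlt' := fun i => lt_of_lt_bd (q := q) (el := el) (t := t) (F := F) (j := j + 1)
            (v := q v) (i := i)
          have hmin1' := fun i => bd_le' (q := q) (el := el) (t := t) (F := F) (j := j + 1)
            (v := q v) (i := i)
          generalize bd q el t F j v = i at *
          generalize bd q el t F (j + 1) (q v) = i' at *
          have hA : i' ≤ i := by
            rcases hi with h3 | h3
            · omega
            · exact hmin1' i ((h.mono _ _ h3).trans (u1 i j))
          have hB : i ≤ i' + 1 := by
            by_contra h3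
            have h4 := hlt (i' + 1) (by omega)
            have h5 := h.mono _ _ h4.le
            have h6 := u3 (q := q) (el := el) (t := t) h i' j
            rcases hi' with h7 | h7
            · omega
            · omega
          by_cases hii : i' = i
          · subst hii
            have hcj : c i' = j + 1 := by omega
            by_cases hiF : i' ≤ F
            · have htg := hc3 i' hiF
              rw [hcj, Nat.add_sub_cancel] at htg
              have hvle : v ≤ st q el t i' j := by
                rcases hi with h3 | h3
                · omega
                · exact h3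
              rcases htg with h3 | h3
              · subst h3
                have h4 : v = tt q t j := by
                  change v ≤ tt q t j at hvle
                  omega
                refine Finset.mem_union_left _ (Finset.mem_image.2 ⟨j + 1,
                  Finset.mem_range.2 (by omega), ?_⟩)
                rw [h4]
                rfl
              · have h4 : v = st q el t i' j := by
                  by_contra h5
                  have h6 : ¬ el (st q el t (i' - 1) (j + 1)) ≤ v := by omega
                  rw [h.gal, not_lt] at h6
                  have h7 := hmin1' (i' - 1) h6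
                  have h8 : i' = 0 := by omega
                  subst h8
                  -- then `st 0 j = el (st 0 (j + 1)) > st 0 j`
                  have h9 := u1 (q := q) (el := el) (t := t) 0 j
                  have h10 : ¬ el (st q el t 0 (j + 1)) ≤ st q el t 0 j := by
                    rw [h.gal, not_lt]
                    exact h9
                  exact h10 h3.ge
                refine Finset.mem_union_right _ (Finset.mem_union_right _ (Finset.mem_image.2
                  ⟨i', Finset.mem_range.2 (by omega), ?_⟩))
                simp only [hcj, Nat.add_sub_cancel]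
                rw [← h4]
            · exfalso
              have h3 : i' = F + 1 := by omega
              subst h3
              rw [hcF] at hcj
              subst hcj
              have h4 := hlt' F (by omega)
              have h5 : q v < tt q t (j + 1 + 1) := by
                change q v < tt q t (j + 2)
                omega
              omega
          · have h3 : i = i' + 1 := by omega
            subst h3
            obtain ⟨_, h4⟩ := hc2 i' (by omega) (j + 1) (by omega) (by omega)
            rw [Nat.add_sub_cancel] at h4
            have h5 := hlt i' (by omega)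
            have h6 := h.mono _ _ h5.le
            have h7 : q v ≤ st q el t i' (j + 1) := by
              rcases hi' with h8 | h8
              · omega
              · exact h8
            have h8 : q v = st q el t i' (j + 1) := by omega
            refine Finset.mem_union_right _ (Finset.mem_union_left _ ?_)
            rw [h8]
            exact mem_PP (by omega) (by omega) (by omega)
        · exfalso
          have hqX : q v ∈ X := by
            by_contra h3
            exact hv ⟨fun h => absurd h hvX, fun h => absurd h h3⟩
          rw [hmem, h1] at hvX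
          rw [hmem, h2] at hqX
          have hi := bd_spec (q := q) (el := el) (t := t) F j v
          have hi' := bd_spec (q := q) (el := el) (t := t) F (j + 1) (q v)
          have hle := bd_le (q := q) (el := el) (t := t) (F := F) (j := j) (v := v)
          have hlt := fun i => lt_of_lt_bd (q := q) (el := el) (t := t) (F := F) (j := j) (v := v)
            (i := i)
          have hmin1' := fun i => bd_le' (q := q) (el := el) (t := t) (F := F) (j := j + 1)
            (v := q v) (i := i)
          have hle' := bd_le (q := q) (el := el) (t := t) (F := F) (j := j + 1) (v := q v)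
          generalize bd q el t F j v = i at *
          generalize bd q el t F (j + 1) (q v) = i' at *
          have hA : i' ≤ i := by
            rcases hi with h3 | h3
            · omega
            · exact hmin1' i ((h.mono _ _ h3).trans (u1 i j))
          have hB : i ≤ i' + 1 := by
            by_contra h3
            have h4 := hlt (i' + 1) (by omega)
            have h5 := h.mono _ _ h4.le
            have h6 := u3 (q := q) (el := el) (t := t) h i' j
            rcases hi' with h7 | h7
            · omega
            · omega
          by_cases hii : i' = i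
          · subst hii
            omega
          · have h3 : i = i' + 1 := by omega
            subst h3
            have := hc1 i' (by omega)
            omega
  · have h1 := card_PP (q := q) (el := el) (t := t) hc1
    have h2 := Finset.card_union_le ((Finset.range (M + 2)).image fun j => tt q t j - 1)
      (PP q el t F c ∪ (Finset.range (F + 1)).image fun i => st q el t i (c i - 1))
    have h3 := Finset.card_union_le (PP q el t F c)
      ((Finset.range (F + 1)).image fun i => st q el t i (c i - 1))
    have h4 : ((Finset.range (M + 2)).image fun j => tt q t j - 1).card ≤ M + 2 :=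
      Finset.card_image_le.trans (by rw [Finset.card_range])
    have h5 : ((Finset.range (F + 1)).image fun i => st q el t i (c i - 1)).card ≤ F + 1 :=
      Finset.card_image_le.trans (by rw [Finset.card_range])
    omega
  · have h1 := card_PP (q := q) (el := el) (t := t) hc1
    have h2 := Finset.card_union_le ((Finset.range (M + 2)).image fun j => tt q t j)
      (PP q el t F c ∪ (Finset.range (F + 1)).image fun i => q (st q el t i (c i - 1)))
    have h3 := Finset.card_union_le (PP q el t F c)
      ((Finset.range (F + 1)).image fun i => q (st q el t i (c i - 1)))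
    have h4 : ((Finset.range (M + 2)).image fun j => tt q t j).card ≤ M + 2 :=
      Finset.card_image_le.trans (by rw [Finset.card_range])
    have h5 : ((Finset.range (F + 1)).image fun i => q (st q el t i (c i - 1))).card ≤ F + 1 :=
      Finset.card_image_le.trans (by rw [Finset.card_range])
    omega

end Pool.Agent.Lib.MP_0b43f8_lc.Grid
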