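import Pool.Agent.Lib.MP_0b43f8_lc.Grid.Stmts

set_option autoImplicit false

/-!
# Modules GG and NDP
-/

namespace Pool.Agent.Lib.MP_0b43f8_lc.Grid

open Pool.Agent.Lib.MP_0b43f8_lc Pool.Agent.Lib.PT

theorem foldl_last77 (P : ℕ → Bool) (m : ℕ) :
    ((List.range m).foldl (fun g s => bif P s then s else g) 0 = 0 ∨
      (List.range m).foldl (fun g s => bif P s then s else g) 0 < m) ∧
    ((List.range m).foldl (fun g s => bif P s then s else g) 0 ≠ 0 →
      P ((List.range m).foldl (fun g s => bif P s then s else g) 0) = true) ∧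
    ∀ s, (List.range m).foldl (fun g s => bif P s then s else g) 0 < s → s < m → P s = false := by
  induction m with
  | zero => simp
  | succ m ih =>
    rw [List.range_succ, List.foldl_append]
    set r := (List.range m).foldl (fun g s => bif P s then s else g) 0 with hr
    obtain ⟨h1, h2, h3⟩ := ih
    cases hP : P m with
    | true =>
      simp only [List.foldl_cons, List.foldl_nil, hP, cond_true]
      refine ⟨Or.inr (Nat.lt_succ_self m), fun _ => by first | exact hP | rfl | simp, fun s hs hs' => ?_⟩
      omega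
    | false =>
      simp only [List.foldl_cons, List.foldl_nil, hP, cond_false]
      refine ⟨by omega, h2, fun s hs hs' => ?_⟩
      rcases Nat.lt_succ_iff_lt_or_eq.1 hs' with h | h
      · exact h3 s hs h
      · rw [h]
        exact hP

theorem stGG_77 : StGG := by
  intro adj n
  have h := foldl_last77 (sucA adj n) (n + 1)
  refine ⟨?_, h.2.1, fun s h1 h2 => h.2.2 s h1 (by omega)⟩
  have h1 : gg adj n = 0 ∨ gg adj n < n + 1 := h.1
  omega

theorem best_mem77 (adj : ℕ → ℕ → Bool) (n : ℕ) (D : List ℕ) (v : ℕ) (hv : v ∈ best adj n D) :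
    v < n ∧ v ∉ D := by
  unfold best cand at hv
  simp only [List.mem_filter, List.mem_range, Bool.and_eq_true, Bool.not_eq_true',
    decide_eq_false_iff_not] at hv
  exact ⟨hv.1.1, hv.1.2.1⟩

theorem stepO_77 (adj : ℕ → ℕ → Bool) (n : ℕ) (D : List ℕ) (h : D.Nodup ∧ ∀ v ∈ D, v < n) :
    (stepO adj n D).Nodup ∧ ∀ v ∈ stepO adj n D, v < n := by
  unfold stepO
  have hb : ∀ v ∈ (best adj n D).take 1, v < n ∧ v ∉ D := fun v hv =>
    best_mem77 adj n D v (List.mem_of_mem_take hv)
  refine ⟨?_, fun v hv => ?_⟩
  · rw [List.nodup_append]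
    refine ⟨h.1, ?_, fun a ha b hb' hab => ?_⟩
    · rcases best adj n D with _ | ⟨x, l⟩ <;> simp
    · subst hab
      exact (hb a hb').2 ha
  · rw [List.mem_append] at hv
    rcases hv with hv | hv
    · exact h.2 v hv
    · exact (hb v hv).1

theorem stNdp_77 : StNdp := by
  intro adj n a ha
  have h : ∀ k, ((stepO adj n)^[k] [a]).Nodup ∧ ∀ v ∈ (stepO adj n)^[k] [a], v < n := by
    intro k
    induction k with
    | zero =>
      rw [Function.iterate_zero, id]
      exact ⟨List.nodup_singleton a, fun v hv => by rw [List.mem_singleton.1 hv]; exact ha⟩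
    | succ k ih =>
      rw [Function.iterate_succ_apply']
      exact stepO_77 adj n _ ih
  exact h n

end Pool.Agent.Lib.MP_0b43f8_lc.Grid
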