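import Pool.Agent.Lib.MP_0b43f8_lc.Grid.Stmts
import Pool.Agent.Lib.MP_0b43f8_lc.NF1
import Pool.Agent.Lib.MP_0b43f8_lc.Lab

/-!
# The lower bound: powers of paths have large clique-width
-/

set_option autoImplicit false

namespace Pool.Agent.Lib.MP_0b43f8_lc.Grid

open Pool.Agent.Lib.MP_0b43f8_lc

section fe

variable {V : Type} [DecidableEq V]

/-- number of elements of `X` in the window `[x, x + s)` -/
def wn36 (y : ℕ → V) (X : Finset V) (s x : ℕ) : ℕ :=
  ∑ i ∈ Finset.range s, if y (x + i) ∈ X then 1 else 0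

theorem wn_step36 (y : ℕ → V) (X : Finset V) (s x : ℕ) :
    wn36 y X s (x + 1) + (if y x ∈ X then 1 else 0) =
      wn36 y X s x + (if y (x + s) ∈ X then 1 else 0) := by
  have h1 := Finset.sum_range_succ (fun i => if y (x + i) ∈ X then 1 else 0) s
  have h2 := Finset.sum_range_succ' (fun i => if y (x + i) ∈ X then 1 else 0) s
  have h3 : ∑ i ∈ Finset.range s, (if y (x + (i + 1)) ∈ X then 1 else 0) =
      wn36 y X s (x + 1) := by
    unfold wn36
    apply Finset.sum_congr rfl
    intro i _
    have h4 : x + (i + 1) = x + 1 + i := by omega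
    rw [h4]
  rw [h3] at h2
  simp only [add_zero] at h2
  unfold wn36 at *
  omega

theorem wn_full36 (y : ℕ → V) (X : Finset V) (s x : ℕ) (h : ∀ i, i < s → y (x + i) ∈ X) :
    wn36 y X s x = s := by
  unfold wn36
  rw [Finset.sum_congr rfl (fun i hi => if_pos (h i (Finset.mem_range.1 hi)))]
  simp

theorem wn_empty36 (y : ℕ → V) (X : Finset V) (s x : ℕ) (h : ∀ i, i < s → y (x + i) ∉ X) :
    wn36 y X s x = 0 := by
  unfold wn36
  exact Finset.sum_eq_zero (fun i hi => if_neg (h i (Finset.mem_range.1 hi)))

/-- FE, with the full window on the left -/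
theorem fe0_36 (G : SimpleGraph V) (s N k : ℕ) (y : ℕ → V) (X : Finset V) (l : V → ℕ)
    (hP : PowP G s N y) (hk : ∀ v ∈ X, l v < k)
    (hl : ∀ u ∈ X, ∀ v ∈ X, l u = l v → ∀ w, w ∉ X → (G.Adj u w ↔ G.Adj v w)) (a b : ℕ)
    (hab : a < b) (ha : ∀ i, i < s → y (a + i) ∈ X) (hb : b + s ≤ N)
    (hb' : ∀ i, i < s → y (b + i) ∉ X) : s ≤ k := by
  have key : ∀ i, i < s → ∃ x, x < b ∧ wn36 y X s x = i + 1 ∧ y x ∈ X ∧ y (x + s) ∉ X ∧
      ∀ x', x' ≤ b → i + 1 ≤ wn36 y X s x' → x' ≤ x := by
    intro i hi
    set x := Nat.findGreatest (fun x => i + 1 ≤ wn36 y X s x) b with hx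
    have h1 : i + 1 ≤ wn36 y X s x := by
      apply Nat.findGreatest_spec (P := fun x => i + 1 ≤ wn36 y X s x) hab.le
      rw [wn_full36 y X s a ha]
      omega
    have h2 : x ≤ b := Nat.findGreatest_le b
    have h3 : x ≠ b := by
      intro h
      rw [h, wn_empty36 y X s b hb'] at h1
      omega
    have h4 : ¬ i + 1 ≤ wn36 y X s (x + 1) :=
      Nat.findGreatest_is_greatest (P := fun x => i + 1 ≤ wn36 y X s x) (Nat.lt_succ_self x)
        (by omega)
    have h5 := wn_step36 y X s x
    have h8 : ∀ x', x' ≤ b → i + 1 ≤ wn36 y X s x' → x' ≤ x := by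
      intro x' hx' h9
      by_contra h10
      exact Nat.findGreatest_is_greatest (P := fun x => i + 1 ≤ wn36 y X s x)
        (show x < x' by omega) hx' h9
    refine ⟨x, by omega, ?_⟩
    by_cases h6 : y x ∈ X
    · by_cases h7 : y (x + s) ∈ X
      · rw [if_pos h6, if_pos h7] at h5
        omega
      · rw [if_pos h6, if_neg h7] at h5
        exact ⟨by omega, h6, h7, h8⟩
    · rw [if_neg h6] at h5
      omega
  choose! xs hxs using key
  have hlt : ∀ i j, i < s → j < s → xs i < xs j → l (y (xs i)) ≠ l (y (xs j)) := by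
    intro i j hi hj hij heq
    obtain ⟨a1, a2, a3, a4, a5⟩ := hxs i hi
    obtain ⟨b1, b2, b3, b4, -⟩ := hxs j hj
    have hjs : j + 1 < s := by
      by_contra h
      have := a5 (xs j) b1.le (by omega)
      omega
    have hw : ∃ w, xs j < w ∧ w < xs j + s ∧ xs i + s ≤ w ∧ y w ∉ X := by
      by_cases h1 : xs j < xs i + s
      · exact ⟨xs i + s, h1, by omega, le_rfl, a4⟩
      · have h2 : ∃ c, c < s ∧ y (xs j + c) ∉ X := by
          by_contra hcon
          push Not at hcon
          rw [wn_full36 y X s (xs j) hcon] at b2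
          omega
        obtain ⟨c, hc, hcX⟩ := h2
        have h3 : c ≠ 0 := by
          rintro rfl
          exact hcX b3
        exact ⟨xs j + c, by omega, by omega, by omega, hcX⟩
    obtain ⟨w, h1, h2, h3, h4⟩ := hw
    have h5 := (hP (xs i) w (by omega) (by omega)).2
    have h6 := (hP (xs j) w h1 (by omega)).2
    have h7 := hl _ a3 _ b3 heq _ h4
    rw [h5, h6] at h7
    omega
  have hinj : Set.InjOn (fun i => l (y (xs i))) (Finset.range s : Finset ℕ) := by
    intro i hi j hj hij
    simp only [Finset.coe_range, Set.mem_Iio] at hi hj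
    simp only at hij
    rcases lt_trichotomy (xs i) (xs j) with h | h | h
    · exact absurd hij (hlt i j (by omega) (by omega) h)
    · have h1 := (hxs i (by omega)).2.1
      have h2 := (hxs j (by omega)).2.1
      rw [h] at h1
      omega
    · exact absurd hij.symm (hlt j i (by omega) (by omega) h)
  have hcard := Finset.card_image_of_injOn hinj
  have hsub : (Finset.range s).image (fun i => l (y (xs i))) ⊆ Finset.range k := by
    intro c hc
    rw [Finset.mem_image] at hc
    obtain ⟨i, hi, rfl⟩ := hc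
    rw [Finset.mem_range] at hi ⊢
    exact hk _ (hxs i (by omega)).2.2.1
  have h1 := Finset.card_le_card hsub
  rw [hcard, Finset.card_range, Finset.card_range] at h1
  omega

end fe

theorem stFE_36 : StFE := by
  intro V _ G s N k y X l hP hk hl ⟨a, ha, haX⟩ ⟨b, hb, hbX⟩
  rcases lt_trichotomy a b with h | h | h
  · exact fe0_36 G s N k y X l hP hk hl a b h haX hb hbX
  · subst h
    rcases Nat.eq_zero_or_pos s with h0 | h0
    · omega
    · exact absurd (haX 0 h0) (hbX 0 h0)
  · -- reverse the order
    have hP' : PowP G s N (fun x => y (N - 1 - x)) := by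
      intro c d hcd hd
      have h1 := hP (N - 1 - d) (N - 1 - c) (by omega) (by omega)
      refine ⟨h1.1.symm, ?_⟩
      rw [G.adj_comm, h1.2]
      omega
    apply fe0_36 G s N k (fun x => y (N - 1 - x)) X l hP' hk hl (N - s - a) (N - s - b) (by omega)
    · intro i hi
      have h1 : N - 1 - (N - s - a + i) = a + (s - 1 - i) := by omega
      show y (N - 1 - (N - s - a + i)) ∈ X
      rw [h1]
      exact haX _ (by omega)
    · omega
    · intro i hi
      have h1 : N - 1 - (N - s - b + i) = b + (s - 1 - i) := by omega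
      show y (N - 1 - (N - s - b + i)) ∉ X
      rw [h1]
      exact hbX _ (by omega)

/-- an empty window -/
theorem ew36 {V : Type} [DecidableEq V] (G : SimpleGraph V) (s k : ℕ) (y : ℕ → V) (hs : 2 ≤ s)
    (hk : k + 1 ≤ s) (hP : PowP G s (2 * s * s) y) (Z : Finset V) (l : V → ℕ)
    (hZ : Good G k Z l) :
    (∀ u ∈ Z, ∀ v ∈ Z, l u = l v → ∀ w, w ∉ Z → (G.Adj u w ↔ G.Adj v w)) →
    ∃ j, j < 2 * s ∧ ∀ i, i < s → y (j * s + i) ∉ Z := by
  induction hZ with
  | single v l h =>
    intro _
    by_contra hcon
    push Not at hcon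
    obtain ⟨i0, h1, h2⟩ := hcon 0 (by omega)
    obtain ⟨i1, h3, h4⟩ := hcon 1 (by omega)
    rw [Finset.mem_singleton] at h2 h4
    have h5 : 2 * s * s = 2 * (s * s) := by ring
    have h6 : 2 * s ≤ s * s := Nat.mul_le_mul_right s hs
    exact (hP (0 * s + i0) (1 * s + i1) (by omega) (by omega)).1 (h2.trans h4.symm)
  | congr X l l' h e ih =>
    intro hl
    apply ih
    intro u hu v hv huv
    exact hl u hu v hv (by rw [← e u hu, ← e v hv, huv])
  | relab X l i j hj h ih =>
    intro hl
    apply ih
    intro u hu v hv huv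
    exact hl u hu v hv (by simp only [huv])
  | union X Y l hX hY hd h1 h2 ihX ihY =>
    intro hl
    have pX : ∀ u ∈ X, ∀ v ∈ X, l u = l v → ∀ w, w ∉ X → (G.Adj u w ↔ G.Adj v w) := by
      intro u hu v hv huv w hw
      by_cases hwY : w ∈ Y
      · constructor
        · intro h
          exact h2 u hu w hwY h v (Finset.mem_union_left _ hv) w (Finset.mem_union_right _ hwY)
            huv.symm rfl
        · intro h
          exact h2 v hv w hwY h u (Finset.mem_union_left _ hu) w (Finset.mem_union_right _ hwY)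
            huv rfl
      · exact hl u (Finset.mem_union_left _ hu) v (Finset.mem_union_left _ hv) huv w (by
          rw [Finset.mem_union]; tauto)
    have pY : ∀ u ∈ Y, ∀ v ∈ Y, l u = l v → ∀ w, w ∉ Y → (G.Adj u w ↔ G.Adj v w) := by
      intro u hu v hv huv w hw
      by_cases hwX : w ∈ X
      · constructor
        · intro h
          exact (h2 w hwX u hu h.symm w (Finset.mem_union_left _ hwX) v
            (Finset.mem_union_right _ hv) rfl huv.symm).symm
        · intro h
          exact (h2 w hwX v hv h.symm w (Finset.mem_union_left _ hwX) u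
            (Finset.mem_union_right _ hu) rfl huv).symm
      · exact hl u (Finset.mem_union_right _ hu) v (Finset.mem_union_right _ hv) huv w (by
          rw [Finset.mem_union]; tauto)
    have hlabX := (stLab V G k X l hX).2
    have hlabY := (stLab V G k Y l hY).2
    by_contra hcon
    push Not at hcon
    have hin : ∀ j, j < 2 * s → j * s + s ≤ 2 * s * s := by
      intro j hj
      have h3 : (j + 1) * s ≤ 2 * s * s := Nat.mul_le_mul_right s hj
      rw [Nat.add_mul, one_mul] at h3
      exact h3
    -- no window is contained in `X`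
    have nfull : ∀ A : Finset V, (∀ v ∈ A, l v < k) →
        (∀ u ∈ A, ∀ v ∈ A, l u = l v → ∀ w, w ∉ A → (G.Adj u w ↔ G.Adj v w)) →
        (∃ j, j < 2 * s ∧ ∀ i, i < s → y (j * s + i) ∉ A) →
        ∀ j, j < 2 * s → ∃ i, i < s ∧ y (j * s + i) ∉ A := by
      intro A hA pA ⟨b, hb, hbA⟩ j hj
      by_contra hcon'
      push Not at hcon'
      have h3 := stFE_36 V G s (2 * s * s) k y A l hP hA pA ⟨j * s, hin j hj, hcon'⟩
        ⟨b * s, hin b hb, hbA⟩
      omega
    -- consecutive vertices of a window, one in `A`, one not in `A`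
    have step : ∀ (A : Finset V) j, (∃ i, i < s ∧ y (j * s + i) ∈ A) →
        (∃ i, i < s ∧ y (j * s + i) ∉ A) → ∃ v w, j * s ≤ v ∧ v < j * s + s ∧ j * s ≤ w ∧
          w < j * s + s ∧ y v ∈ A ∧ y w ∉ A ∧ (v = w + 1 ∨ w = v + 1) := by
      intro A j ⟨i0, hi0, h0⟩ ⟨i1, hi1, h1⟩
      by_contra hcon
      push Not at hcon
      have h2 : ∀ c, c + 1 < s → (y (j * s + c) ∈ A ↔ y (j * s + (c + 1)) ∈ A) := by
        intro c hc
        constructor
        · intro h3
          by_contra h4
          exact (hcon (j * s + c) (j * s + (c + 1)) (by omega) (by omega) (by omega) (by omega)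
            h3 h4).2 (by omega)
        · intro h3
          by_contra h4
          exact (hcon (j * s + (c + 1)) (j * s + c) (by omega) (by omega) (by omega) (by omega)
            h3 h4).1 (by omega)
      have h3 : ∀ c, c < s → (y (j * s + 0) ∈ A ↔ y (j * s + c) ∈ A) := by
        intro c
        induction c with
        | zero => intro _; exact Iff.rfl
        | succ c ih =>
          intro hc
          exact (ih (by omega)).trans (h2 c hc)
      exact h1 ((h3 i1 hi1).1 ((h3 i0 hi0).2 h0))
    -- every window has a label of its own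
    have key : ∀ j, j < 2 * s → ∃ v w, j * s ≤ v ∧ v < j * s + s ∧ j * s ≤ w ∧ w < j * s + s ∧
        y v ∈ X ∪ Y ∧ ∀ u ∈ X ∪ Y, l u = l (y v) → G.Adj u (y w) := by
      intro j hj
      have hjs := hin j hj
      have hadj : ∀ v w, j * s ≤ v → v < j * s + s → j * s ≤ w → w < j * s + s →
          (v = w + 1 ∨ w = v + 1) → G.Adj (y v) (y w) := by
        intro v w a1 a2 a3 a4 a7
        rcases a7 with h | h
        · rw [G.adj_comm]
          exact (hP w v (by omega) (by omega)).2.2 (by omega)
        · exact (hP v w (by omega) (by omega)).2.2 (by omega)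
      by_cases hfull : ∀ i, i < s → y (j * s + i) ∈ X ∪ Y
      · obtain ⟨iX, b1, b2⟩ := nfull X hlabX pX (ihX pX) j hj
        obtain ⟨iY, b3, b4⟩ := nfull Y hlabY pY (ihY pY) j hj
        have b5 : y (j * s + iY) ∈ X := by
          rcases Finset.mem_union.1 (hfull iY b3) with h | h
          · exact h
          · exact absurd h b4
        obtain ⟨v, w, a1, a2, a3, a4, a5, a6, a7⟩ := step X j ⟨iY, b3, b5⟩ ⟨iX, b1, b2⟩
        have a8 : y w ∈ Y := by
          have := hfull (w - j * s) (by omega)
          rw [show j * s + (w - j * s) = w by omega] at this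
          rcases Finset.mem_union.1 this with h | h
          · exact absurd h a6
          · exact h
        refine ⟨v, w, a1, a2, a3, a4, Finset.mem_union_left _ a5, fun u hu hul => ?_⟩
        exact h2 (y v) a5 (y w) a8 (hadj v w a1 a2 a3 a4 a7) u hu (y w)
          (Finset.mem_union_right _ a8) hul rfl
      · push Not at hfull
        obtain ⟨i1, c1, c2⟩ := hfull
        obtain ⟨i0, c3, c4⟩ := hcon j hj
        obtain ⟨v, w, a1, a2, a3, a4, a5, a6, a7⟩ := step (X ∪ Y) j ⟨i0, c3, c4⟩ ⟨i1, c1, c2⟩
        refine ⟨v, w, a1, a2, a3, a4, a5, fun u hu hul => ?_⟩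
        exact (hl u hu (y v) a5 hul (y w) a6).2 (hadj v w a1 a2 a3 a4 a7)
    choose! v w hvw using key
    have hne : ∀ j, j < 2 * s → ∀ j', j' < 2 * s → j + 2 ≤ j' → l (y (v j)) ≠ l (y (v j')) := by
      intro j hj j' hj' hjj heq
      obtain ⟨a1, a2, a3, a4, a5, a6⟩ := hvw j hj
      obtain ⟨b1, b2, b3, b4, b5, b6⟩ := hvw j' hj'
      have h3 := a6 _ b5 heq.symm
      have h4 : (j + 2) * s ≤ j' * s := Nat.mul_le_mul_right s hjj
      rw [Nat.add_mul] at h4
      have h5 := hin j' hj'
      rw [G.adj_comm] at h3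
      have h6 := (hP (w j) (v j') (by omega) (by omega)).2.1 h3
      omega
    have hinj : Set.InjOn (fun i => l (y (v (2 * i)))) (Finset.range s : Finset ℕ) := by
      intro i hi j hj hij
      simp only [Finset.coe_range, Set.mem_Iio] at hi hj
      simp only at hij
      rcases lt_trichotomy i j with h | h | h
      · exact absurd hij (hne (2 * i) (by omega) (2 * j) (by omega) (by omega))
      · exact h
      · exact absurd hij.symm (hne (2 * j) (by omega) (2 * i) (by omega) (by omega))
    have hcard := Finset.card_image_of_injOn hinj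
    have hsub : (Finset.range s).image (fun i => l (y (v (2 * i)))) ⊆ Finset.range k := by
      intro c hc
      rw [Finset.mem_image] at hc
      obtain ⟨i, hi, rfl⟩ := hc
      rw [Finset.mem_range] at hi ⊢
      rcases Finset.mem_union.1 (hvw (2 * i) (by omega)).2.2.2.2.1 with h | h
      · exact hlabX _ h
      · exact hlabY _ h
    have h3 := Finset.card_le_card hsub
    rw [hcard, Finset.card_range, Finset.card_range] at h3
    omega

theorem stLow_36 : StLow := by
  intro V _ G s k y Z l hs hP hyZ hZ hl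
  by_contra hcon
  obtain ⟨j, hj, hjZ⟩ := ew36 G s k y hs (by omega) hP Z l hZ hl
  have h1 : (j + 1) * s ≤ 2 * s * s := Nat.mul_le_mul_right s hj
  rw [Nat.add_mul, one_mul] at h1
  exact hjZ 0 (by omega) (hyZ _ (by omega))

theorem stCwp_36 : StCwp := by
  intro n s k G y hs hP hk
  obtain ⟨l, hl⟩ := stNF1 (Fin n) G k hk
  exact stLow_36 (Fin n) G s k y Finset.univ l hs hP (fun _ _ => Finset.mem_univ _) hl
    (fun _ _ _ _ _ w hw => absurd (Finset.mem_univ w) hw)

end Pool.Agent.Lib.MP_0b43f8_lc.Grid
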