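import Pool.Agent.Lib.MP_0b43f8_lc.Grid.Stmts
import Pool.Agent.Lib.MP_0b43f8_lc.Solve

set_option autoImplicit false

/-!
# Modules LOWO and LOA
-/

namespace Pool.Agent.Lib.MP_0b43f8_lc.Grid

open Pool.Agent.Lib.MP_0b43f8_lc Pool.Agent.Lib.PT

theorem stLowo_77 (hS : StStr) (hE : StEmbP) (hP : StPos) : StLowo := by
  intro adj G o n s hadj hn hnd hchk hs hsuc
  obtain ⟨hq, hG, hlen⟩ := hP adj G o hadj hchk
  unfold sucO at hsuc
  rw [List.any_eq_true] at hsuc
  obtain ⟨t, ht, hall⟩ := hsuc
  rw [List.all_eq_true] at hall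
  have hSuc : Suc (qO adj o) (eO adj o) t s := by
    intro j hj
    have h := hall j (List.mem_range.2 hj)
    exact of_decide_eq_true h
  obtain ⟨y, hy1, hy2⟩ := hE (qO adj o) (eO adj o) t s hq (by omega) hSuc
  -- the strands increase
  have hinc : ∀ i j, st (qO adj o) (eO adj o) t 0 j + i ≤ st (qO adj o) (eO adj o) t i j := by
    intro i j
    induction i with
    | zero => exact le_rfl
    | succ i ih =>
      have h := (hS (qO adj o) (eO adj o) hq t i j).2.1
      omega
  have htt : tt (qO adj o) t (2 * s - 1) < o.length := by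
    by_contra hcon
    push Not at hcon
    have h1 := hlen (tt (qO adj o) t (2 * s - 1))
    rw [max_eq_right (by omega)] at h1
    have h2 := hSuc (2 * s - 1) (by omega)
    have h3 := hinc (s - 1) (2 * s - 1)
    have h4 : tt (qO adj o) t (2 * s - 1 + 1) = qO adj o (tt (qO adj o) t (2 * s - 1)) := rfl
    have h5 : st (qO adj o) (eO adj o) t 0 (2 * s - 1) = tt (qO adj o) t (2 * s - 1) := rfl
    omega
  have htt2 : tt (qO adj o) t (2 * s) ≤ o.length := by
    have h4 : tt (qO adj o) t (2 * s) = qO adj o (tt (qO adj o) t (2 * s - 1)) := by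
      have : 2 * s = 2 * s - 1 + 1 := by omega
      conv_lhs => rw [this]
      rfl
    rw [h4]
    have h1 := hlen (tt (qO adj o) t (2 * s - 1))
    rw [max_eq_left (by omega)] at h1
    exact h1
  have hylt : ∀ b, b < 2 * s * s → y b < o.length := fun b hb =>
    lt_of_lt_of_le (hy2 b hb) htt2
  have hyge : ∀ b, b < 2 * s * s → b ≤ y b := by
    intro b
    induction b with
    | zero => intro _; exact Nat.zero_le _
    | succ b ih =>
      intro hb
      have h1 := ih (by omega)
      have h2 := (hy1 b (b + 1) (by omega) hb).1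
      omega
  have hN : 0 < 2 * s * s := by positivity
  have hlenn : o.length ≤ n := by
    have h1 : o.toFinset ⊆ Finset.range n := fun v hv => by
      rw [List.mem_toFinset] at hv
      exact Finset.mem_range.2 (hn v hv)
    have h2 := Finset.card_le_card h1
    rw [List.toFinset_card_of_nodup hnd, Finset.card_range] at h2
    exact h2
  refine ⟨?_, fun b => o.getD (y b) 0, ?_, ?_⟩
  · have h1 := hyge (2 * s * s - 1) (by omega)
    have h2 := hylt (2 * s * s - 1) (by omega)
    have h3 : s ≤ 2 * s * s := by nlinarith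
    omega
  · intro a b hab hb
    have ha : a < 2 * s * s := by omega
    obtain ⟨h1, h2⟩ := hy1 a b hab hb
    have h3 := hylt a ha
    have h4 := hylt b hb
    refine ⟨?_, ?_⟩
    · intro h
      change o.getD (y a) 0 = o.getD (y b) 0 at h
      rw [List.getD_eq_getElem _ _ h3, List.getD_eq_getElem _ _ h4] at h
      have h5 := (List.Nodup.getElem_inj_iff hnd).1 h
      omega
    · change G.Adj (o.getD (y a) 0) (o.getD (y b) 0) ↔ b < a + s
      rw [hG _ _ h1 h4]
      exact h2
  · intro b hb
    change o.getD (y b) 0 < n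
    rw [List.getD_eq_getElem _ _ (hylt b hb)]
    exact hn _ (List.getElem_mem _)

theorem stLoA_77 (hL : StLowo) (hN : StNdp) : StLoA := by
  intro n s G hsuc
  unfold sucA at hsuc
  rw [Bool.and_eq_true, decide_eq_true_eq, List.any_eq_true] at hsuc
  obtain ⟨hs, a, ha, h⟩ := hsuc
  rw [Bool.and_eq_true] at h
  have ha' : a < n := List.mem_range.1 ha
  obtain ⟨hnd, hlt⟩ := hN (adjM n (matrix G)) n a ha'
  obtain ⟨h1, y, h2, h3⟩ := hL (adjM n (matrix G)) (natG G) (ordO (adjM n (matrix G)) n a) n s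
    (adjM_iff G) hlt hnd h.1 hs h.2
  refine ⟨h1, fun b => if hb : y b < n then ⟨y b, hb⟩ else ⟨a, ha'⟩, ?_⟩
  intro b c hbc hc
  have hb' := h3 b (by omega)
  have hc' := h3 c hc
  obtain ⟨h4, h5⟩ := h2 b c hbc hc
  simp only [dif_pos hb', dif_pos hc']
  refine ⟨fun h => h4 (congrArg Fin.val h), ?_⟩
  rw [← h5, natG_adj]
  exact ⟨fun h => ⟨hb', hc', h⟩, fun ⟨_, _, h⟩ => h⟩

end Pool.Agent.Lib.MP_0b43f8_lc.Grid
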