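import Pool.Agent.Lib.MP_0b43f8_lc.Grid.Cut1

set_option autoImplicit false

/-! ONEC: the upper bound for one order. -/

namespace Pool.Agent.Lib.MP_0b43f8_lc.Grid

open Pool.Agent.Lib.MP_0b43f8_lc

/-- The graph of `q`. -/
def grQ (q : ℕ → ℕ) : SimpleGraph ℕ where
  Adj i j := (i < j ∧ j < q i) ∨ (j < i ∧ i < q j)
  symm := ⟨fun _ _ h => h.symm⟩
  loopless := ⟨fun i h => by rcases h with h | h <;> exact absurd h.1 (lt_irrefl i)⟩

theorem grQ_isG (q : ℕ → ℕ) : IsG q (grQ q) := by
  intro i j hij
  constructor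
  · rintro (h | h)
    · exact h.2
    · omega
  · intro h
    exact Or.inl ⟨hij, h⟩

open C1 in
theorem stOnec_1 (hPos : StPos) (hCut : StCut) (hChn : StChn) (hLin : StLin) (hRes : StRestr)
    (hEmb : StEmb) : StOnec := by
  intro adj G o s hG hnd hne hchk hs hsuc
  obtain ⟨hQE, hadj, hle⟩ := hPos adj G o hG hchk
  set q := qO adj o with hq
  set el := eO adj o with hel
  have hlen : 0 < o.length := List.length_pos_iff.2 hne
  have hfail : ∀ t, ∃ j, j ≤ 2 * s - 1 ∧ tt q t (j + 1) ≤ st q el t (s - 1) j := by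
    intro t
    by_cases ht : t < o.length
    · unfold sucO at hsuc
      rw [List.any_eq_false] at hsuc
      have h1 := hsuc t (List.mem_range.2 ht)
      rw [List.all_eq_true] at h1
      by_contra h2
      apply h1
      intro j hj
      rw [decide_eq_true_eq]
      by_contra h3
      exact h2 ⟨j, by have := List.mem_range.1 hj; omega, not_lt.1 h3⟩
    · refine ⟨0, by omega, ?_⟩
      have h1 := hle t
      have h2 : ∀ i, 1 ≤ i → t + 1 ≤ st q el t i 0 := by
        intro i
        induction i with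
        | zero => intro h; omega
        | succ i ih =>
          intro _
          have h3 := u2 (q := q) (el := el) (t := t) hQE i 0
          rcases Nat.eq_zero_or_pos i with h4 | h4
          · subst h4
            change t < _ at h3
            omega
          · have := ih h4
            omega
      have h3 := h2 (s - 1) (by omega)
      have h4 : tt q t (0 + 1) = q t := rfl
      rw [h4]
      omega
  have hc : ∀ t, ∃ X V H : Finset ℕ, Finset.range t ⊆ X ∧ X ⊆ Finset.range (tt q t (3 * s - 1)) ∧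
      Cut q X V H ∧ V.card ≤ 7 * s ∧ H.card ≤ 7 * s := by
    intro t
    obtain ⟨X, V, H, h1, h2, h3, h4, h5⟩ := hCut q el t (s - 1) (2 * s - 1) hQE (hfail t)
    refine ⟨X, V, H, h1, ?_, h3, by omega, by omega⟩
    have : 2 * s - 1 + (s - 1) + 1 = 3 * s - 1 := by omega
    rw [this] at h2
    exact h2
  obtain ⟨R, hR1, hR2⟩ := hChn q (grQ q) (3 * s - 1) (7 * s) o.length hQE.mono hQE.gt (grQ_isG q)
    (by omega) hc
  have hRne : R.Nonempty := ⟨0, hR1 (Finset.mem_range.2 hlen)⟩
  obtain ⟨l, hl, _⟩ := hLin ℕ (grQ q) _ (52 * s) R (by omega) hR2 hRne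
  have hint : R ∩ Finset.range o.length = Finset.range o.length := Finset.inter_eq_right.2 hR1
  have hl2 := hRes ℕ (grQ q) _ R l hl (Finset.range o.length) (by
    rw [hint]
    exact ⟨0, Finset.mem_range.2 hlen⟩)
  rw [hint] at hl2
  -- transfer
  let e1 : Fin o.length ↪ ℕ := Fin.valEmbedding
  let e2 : Fin o.length ↪ ℕ := ⟨fun i => o.getD i 0, fun a b hab => by
    simp only [List.getD_eq_getElem _ _ a.2, List.getD_eq_getElem _ _ b.2] at hab
    exact Fin.ext ((hnd.getElem_inj_iff).1 hab)⟩
  have hmap1 : (Finset.univ : Finset (Fin o.length)).map e1 = Finset.range o.length := by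
    ext x
    simp only [Finset.mem_map, Finset.mem_univ, true_and, Finset.mem_range]
    constructor
    · rintro ⟨a, rfl⟩
      exact a.2
    · intro h
      exact ⟨⟨x, h⟩, rfl⟩
  have hmap2 : (Finset.univ : Finset (Fin o.length)).map e2 = o.toFinset := by
    ext x
    simp only [Finset.mem_map, Finset.mem_univ, true_and, List.mem_toFinset]
    constructor
    · rintro ⟨a, rfl⟩
      change o.getD a 0 ∈ o
      rw [List.getD_eq_getElem _ _ a.2]
      exact List.getElem_mem _
    · intro h
      obtain ⟨i, hi, rfl⟩ := List.getElem_of_mem h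
      exact ⟨⟨i, hi⟩, List.getD_eq_getElem _ _ hi⟩
  let G1 : SimpleGraph (Fin o.length) := (grQ q).comap e1
  have hG1 : ∀ u v, G1.Adj u v ↔ (grQ q).Adj (e1 u) (e1 v) := fun _ _ => Iff.rfl
  have hG2 : ∀ u v, G1.Adj u v ↔ G.Adj (e2 u) (e2 v) := by
    intro u v
    change ((u : ℕ) < v ∧ (v : ℕ) < q u) ∨ ((v : ℕ) < u ∧ (u : ℕ) < q v) ↔
      G.Adj (o.getD u 0) (o.getD v 0)
    rcases Nat.lt_trichotomy (u : ℕ) v with h | h | h
    · rw [hadj u v h v.2]
      constructor
      · rintro (h1 | h1)
        · exact h1.2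
        · omega
      · intro h1
        exact Or.inl ⟨h, h1⟩
    · constructor
      · rintro (h1 | h1)
        · omega
        · omega
      · intro h1
        rw [h] at h1
        exact absurd h1 (G.irrefl)
    · rw [G.adj_comm, hadj v u h u.2]
      constructor
      · rintro (h1 | h1)
        · omega
        · exact h1.2
      · intro h1
        exact Or.inr ⟨h, h1⟩
  have h1 := (hEmb (Fin o.length) ℕ e1 G1 (grQ q) (52 * s) hG1 Finset.univ l).1 (by
    rw [hmap1]
    exact hl2)
  refine ⟨fun v => l (o.idxOf v), ?_⟩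
  rw [← hmap2]
  refine (hEmb (Fin o.length) ℕ e2 G1 G (52 * s) hG2 Finset.univ _).2 ?_
  refine Good.congr _ _ _ h1 fun v _ => ?_
  change l v = l (o.idxOf (o.getD v 0))
  rw [List.getD_eq_getElem _ _ v.2, hnd.idxOf_getElem]

end Pool.Agent.Lib.MP_0b43f8_lc.Grid
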