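import Pool.Agent.Lib.MP_0b43f8_lc.Grid.Stmts

set_option autoImplicit false

/-!
# ORDR: the order from the leftmost vertex of a component is correct
-/

namespace Pool.Agent.Lib.MP_0b43f8_lc.Grid.Ordr75

open Pool.Agent.Lib.MP_0b43f8_lc Pool.Agent.Lib.MP_0b43f8_lc.Grid

/-- twins: equal closed neighbourhoods -/
def Tw (G : SimpleGraph ℕ) (u v : ℕ) : Prop := ∀ w, (w = u ∨ G.Adj u w) ↔ (w = v ∨ G.Adj v w)

/-- left of, up to twins -/
def Le (G : SimpleGraph ℕ) (f : ℕ → ℝ) (u v : ℕ) : Prop := f u ≤ f v ∨ Tw G u v

/-- the invariant of the greedy order -/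
structure Inv (G : SimpleGraph ℕ) (f : ℕ → ℝ) (n a : ℕ) (D : List ℕ) : Prop where
  mem : a ∈ D
  nodup : D.Nodup
  reach : ∀ v ∈ D, G.Reachable a v
  lt : ∀ v ∈ D, v < n
  pw : D.Pairwise (Le G f)
  out : ∀ u ∈ D, ∀ v, v ∉ D → G.Reachable a v → Le G f u v

lemma filter_conv (D : List ℕ) (p q : ℕ → Bool) (h : ∀ x ∈ D, p x = true → q x = true)
    (hl : (D.filter q).length ≤ (D.filter p).length) : ∀ x ∈ D, q x = true → p x = true := by
  intro x hx hq
  have e1 : (D.filter q).filter p = D.filter p := by
    rw [List.filter_filter]
    apply List.filter_congr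
    intro y hy
    by_cases hp : p y = true
    · simp [hp, h y hy hp]
    · simp [hp]
  have e2 : ((D.filter q).filter p).length = (D.filter q).length := by
    apply le_antisymm (List.length_filter_le _ _)
    rw [e1]
    exact hl
  have e3 := List.length_filter_eq_length_iff.mp e2
  exact e3 x (List.mem_filter.mpr ⟨hx, hq⟩)

lemma filter_len (D : List ℕ) (p q : ℕ → Bool) (h : ∀ x ∈ D, p x = true → q x = true) :
    (D.filter p).length ≤ (D.filter q).length := by
  have e1 : (D.filter q).filter p = D.filter p := by
    rw [List.filter_filter]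
    apply List.filter_congr
    intro y hy
    by_cases hp : p y = true
    · simp [hp, h y hy hp]
    · simp [hp]
  rw [← e1]
  exact List.length_filter_le _ _

lemma exists_max (l : List ℕ) (g : ℕ → ℕ) (h : l ≠ []) : ∃ v ∈ l, ∀ u ∈ l, g u ≤ g v := by
  induction l with
  | nil => exact absurd rfl h
  | cons x l ih =>
    by_cases hl : l = []
    · subst hl
      exact ⟨x, by simp, by simp⟩
    · obtain ⟨v, hv, hm⟩ := ih hl
      by_cases hx : g x ≤ g v
      · refine ⟨v, List.mem_cons_of_mem _ hv, fun u hu => ?_⟩
        rcases List.mem_cons.mp hu with rfl | hu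
        · exact hx
        · exact hm u hu
      · refine ⟨x, by simp, fun u hu => ?_⟩
        rcases List.mem_cons.mp hu with rfl | hu
        · exact le_refl _
        · exact (hm u hu).trans (le_of_lt (not_le.mp hx))

section

variable {adj : ℕ → ℕ → Bool} {G : SimpleGraph ℕ} {f : ℕ → ℝ} {n a : ℕ}

lemma mem_cand {D : List ℕ} {v : ℕ} :
    v ∈ cand adj n D ↔ v < n ∧ v ∉ D ∧ ∃ w ∈ D, adj v w = true := by
  simp [cand, List.mem_filter]

lemma mem_best {D : List ℕ} {v : ℕ} :
    v ∈ best adj n D ↔ v ∈ cand adj n D ∧ ∀ u ∈ cand adj n D,
      score adj n D u ≤ score adj n D v := by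
  simp [best, List.mem_filter]

lemma best_nil {D : List ℕ} (h : best adj n D = []) : cand adj n D = [] := by
  by_contra hc
  obtain ⟨v, hv, hm⟩ := exists_max (cand adj n D) (score adj n D) hc
  have : v ∈ best adj n D := mem_best.mpr ⟨hv, hm⟩
  rw [h] at this
  simp at this

lemma full_of_nil (hadj : ∀ u v, G.Adj u v ↔ adj u v = true) (hn : ∀ u v, G.Adj u v → u < n ∧ v < n)
    {D : List ℕ} (hD : Inv G f n a D) (h : cand adj n D = []) :
    ∀ v, v ∈ D ↔ G.Reachable a v := by
  intro v
  refine ⟨fun hv => hD.reach v hv, fun hv => ?_⟩
  obtain ⟨p⟩ := hv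
  have key : ∀ {x y : ℕ}, G.Walk x y → x ∈ D → y ∈ D := by
    intro x y p
    induction p with
    | nil => exact fun h => h
    | cons hxy p ih =>
      intro hx
      apply ih
      by_contra hy
      have : _ ∈ cand adj n D := mem_cand.mpr ⟨(hn _ _ hxy).2, hy, _, hx, (hadj _ _).mp hxy.symm⟩
      rw [h] at this
      simp at this
  exact key p hD.mem

lemma tw_adj {u v : ℕ} (h : Tw G u v) (huv : u ≠ v) : G.Adj u v := by
  have := (h v).mpr (Or.inl rfl)
  rcases this with h1 | h1
  · exact absurd h1.symm huv
  · exact h1

lemma cn2_card (hadj : ∀ u v, G.Adj u v ↔ adj u v = true) {D : List ℕ} {v : ℕ} (hv : v < n)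
    (hvD : v ∉ D) : ((Finset.range n).filter fun w => w ∉ D ∧ (w = v ∨ adj v w = true)).card =
      cn2 adj n D v + 1 := by
  have e : ((Finset.range n).filter fun w => w ∉ D ∧ (w = v ∨ adj v w = true)) =
      insert v ((Finset.range n).filter fun w => adj v w = true ∧ w ∉ D) := by
    ext w
    simp only [Finset.mem_filter, Finset.mem_range, Finset.mem_insert]
    constructor
    · rintro ⟨h1, h2, h3 | h3⟩
      · exact Or.inl h3
      · exact Or.inr ⟨h1, h3, h2⟩
    · rintro (h | ⟨h1, h2, h3⟩)
      · subst h
        exact ⟨hv, hvD, Or.inl rfl⟩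
      · exact ⟨h1, h3, Or.inr h2⟩
  have hnv : v ∉ ((Finset.range n).filter fun w => adj v w = true ∧ w ∉ D) := by
    simp only [Finset.mem_filter, not_and]
    intro _ h
    exact absurd ((hadj v v).mpr h) (G.loopless.irrefl v)
  rw [e, Finset.card_insert_of_notMem hnv]
  congr 1
  unfold cn2
  rw [← List.toFinset_card_of_nodup (List.Nodup.filter _ List.nodup_range)]
  congr 1
  ext w
  simp

lemma step_inv (hadj : ∀ u v, G.Adj u v ↔ adj u v = true) (hn : ∀ u v, G.Adj u v → u < n ∧ v < n)
    (hf : ∀ u, u < n → ∀ v, v < n → (G.Adj u v ↔ u ≠ v ∧ |f u - f v| ≤ 1))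
    {D : List ℕ} (hD : Inv G f n a D) {vs : ℕ} {l : List ℕ} (hb : best adj n D = vs :: l) :
    Inv G f n a (D ++ [vs]) := by
  have hmb : vs ∈ best adj n D := by rw [hb]; simp
  obtain ⟨hc, hmax⟩ := mem_best.mp hmb
  obtain ⟨hlt, hnD, u, huD, hu⟩ := mem_cand.mp hc
  have hadju : G.Adj vs u := (hadj _ _).mpr hu
  have hreach : G.Reachable a vs := (hD.reach u huD).trans hadju.symm.reachable
  have hun : u < n := hD.lt u huD
  have hfu : |f vs - f u| ≤ 1 := ((hf vs hlt u hun).mp hadju).2
  have hfu' := abs_le.mp hfu
  refine ⟨by simp [hD.mem], ?_, ?_, ?_, ?_, ?_⟩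
  · rw [List.nodup_append]
    refine ⟨hD.nodup, by simp, ?_⟩
    intro x hx y hy
    simp only [List.mem_singleton] at hy
    subst hy
    intro he
    subst he
    exact hnD hx
  · intro v hv
    rcases List.mem_append.mp hv with h | h
    · exact hD.reach v h
    · simp only [List.mem_singleton] at h
      subst h
      exact hreach
  · intro v hv
    rcases List.mem_append.mp hv with h | h
    · exact hD.lt v h
    · simp only [List.mem_singleton] at h
      subst h
      exact hlt
  · rw [List.pairwise_append]
    refine ⟨hD.pw, by simp, ?_⟩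
    intro x hx y hy
    simp only [List.mem_singleton] at hy
    subst hy
    exact hD.out x hx _ hnD hreach
  · intro x hx v hv hrv
    have hvD : v ∉ D := fun h => hv (List.mem_append.mpr (Or.inl h))
    have hvs : v ≠ vs := fun h => hv (List.mem_append.mpr (Or.inr (by simp [h])))
    rcases List.mem_append.mp hx with h | h
    · exact hD.out x h v hvD hrv
    · simp only [List.mem_singleton] at h
      subst h
      by_cases hle : f x ≤ f v
      · exact Or.inl hle
      right
      have hlt' : f v < f x := not_le.mp hle
      -- (i)
      have h1 : ∀ w ∈ D, adj x w = true → adj v w = true := by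
        intro w hw hxw
        have hxw' : G.Adj x w := (hadj _ _).mpr hxw
        rcases hD.out w hw v hvD hrv with h | h
        · have hwn := hD.lt w hw
          have h3 := ((hf x hlt w hwn).mp hxw').2
          have h4 := abs_le.mp h3
          have hvn : v < n := by
            by_contra hvn
            -- v is reachable from a, so it has a neighbour or it is a
            obtain ⟨p⟩ := hrv
            cases hp : p.reverse with
            | nil => exact hvD hD.mem
            | cons hxy _ => exact hvn (hn _ _ hxy).1
          refine (hadj _ _).mp ((hf v hvn w hwn).mpr ⟨?_, ?_⟩)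
          · intro he
            subst he
            exact hvD hw
          · rw [abs_le]
            constructor <;> linarith [h4.1, h4.2]
        · have hwv : w ≠ v := fun he => hvD (he ▸ hw)
          exact (hadj _ _).mp (tw_adj h hwv).symm
      have hvu : adj v u = true := h1 u huD hu
      have hvu' : G.Adj v u := (hadj _ _).mpr hvu
      have hvn : v < n := (hn _ _ hvu').1
      have hvc : v ∈ cand adj n D := mem_cand.mpr ⟨hvn, hvD, u, huD, hvu⟩
      have hsc := hmax v hvc
      have hcn : cn1 adj D x ≤ cn1 adj D v := filter_len D _ _ h1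
      have hcn2 : cn1 adj D v ≤ cn1 adj D x := by
        by_contra hcc
        have hcc' : cn1 adj D x + 1 ≤ cn1 adj D v := not_le.mp hcc
        unfold score at hsc
        have h5 : (cn1 adj D x + 1) * (n + 1) ≤ cn1 adj D v * (n + 1) :=
          Nat.mul_le_mul_right _ hcc'
        have h6 : n - cn2 adj n D x ≤ n := Nat.sub_le _ _
        have h7 : (cn1 adj D x + 1) * (n + 1) = cn1 adj D x * (n + 1) + n + 1 := by ring
        omega
      have hceq : cn1 adj D v = cn1 adj D x := le_antisymm hcn2 hcn
      have h2 : ∀ w ∈ D, adj v w = true → adj x w = true := filter_conv D _ _ h1 hcn2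
      have hcle : ∀ y, cn2 adj n D y ≤ n := by
        intro y
        unfold cn2
        refine (List.length_filter_le _ _).trans ?_
        simp
      have hc2 : cn2 adj n D x ≤ cn2 adj n D v := by
        unfold score at hsc
        rw [hceq] at hsc
        have h5 := hcle x
        have h6 := hcle v
        omega
      -- (ii)
      have h3 : ∀ w, w ∉ D → (w = v ∨ G.Adj v w) → (w = x ∨ G.Adj x w) := by
        intro w hw hvw
        have hwn : w < n := by
          rcases hvw with h | h
          · subst h
            exact hvn
          · exact (hn _ _ h).2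
        have hwr : G.Reachable a w := by
          rcases hvw with h | h
          · subst h
            exact hrv
          · exact hrv.trans h.reachable
        have hfw : f w ≤ f v + 1 := by
          rcases hvw with h | h
          · subst h
            linarith
          · have := abs_le.mp ((hf v hvn w hwn).mp h).2
            linarith [this.1]
        by_cases hwx : w = x
        · exact Or.inl hwx
        right
        by_cases hfw2 : f w < f x
        · rcases hD.out u huD w hw hwr with h | h
          · refine (hf x hlt w hwn).mpr ⟨fun he => hwx he.symm, ?_⟩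
            rw [abs_le]
            constructor <;> linarith [hfu'.1, hfu'.2]
          · have := (h x).mp (Or.inr hadju.symm)
            rcases this with h8 | h8
            · exact absurd h8.symm hwx
            · exact h8.symm
        · refine (hf x hlt w hwn).mpr ⟨fun he => hwx he.symm, ?_⟩
          rw [abs_le]
          constructor <;> linarith [not_lt.mp hfw2]
      have hsub : ((Finset.range n).filter fun w => w ∉ D ∧ (w = v ∨ adj v w = true)) ⊆
          ((Finset.range n).filter fun w => w ∉ D ∧ (w = x ∨ adj x w = true)) := by
        intro w hw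
        simp only [Finset.mem_filter, Finset.mem_range] at hw ⊢
        refine ⟨hw.1, hw.2.1, ?_⟩
        have := h3 w hw.2.1 (by rcases hw.2.2 with h | h; exact Or.inl h; exact Or.inr ((hadj _ _).mpr h))
        rcases this with h | h
        · exact Or.inl h
        · exact Or.inr ((hadj _ _).mp h)
      have heq := Finset.eq_of_subset_of_card_le hsub (by
        rw [cn2_card hadj hvn hvD, cn2_card hadj hlt hnD]
        omega)
      intro w
      by_cases hwD : w ∈ D
      · have hwx : w ≠ x := fun he => hnD (he ▸ hwD)
        have hwv : w ≠ v := fun he => hvD (he ▸ hwD)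
        constructor
        · rintro (h | h)
          · exact absurd h hwx
          · exact Or.inr ((hadj _ _).mpr (h1 w hwD ((hadj _ _).mp h)))
        · rintro (h | h)
          · exact absurd h hwv
          · exact Or.inr ((hadj _ _).mpr (h2 w hwD ((hadj _ _).mp h)))
      · constructor
        · intro h
          have hwn : w < n := by
            rcases h with h | h
            · subst h
              exact hlt
            · exact (hn _ _ h).2
          have hm : w ∈ ((Finset.range n).filter fun w => w ∉ D ∧ (w = x ∨ adj x w = true)) := by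
            simp only [Finset.mem_filter, Finset.mem_range]
            refine ⟨hwn, hwD, ?_⟩
            rcases h with h | h
            · exact Or.inl h
            · exact Or.inr ((hadj _ _).mp h)
          rw [← heq] at hm
          simp only [Finset.mem_filter, Finset.mem_range] at hm
          rcases hm.2.2 with h | h
          · exact Or.inl h
          · exact Or.inr ((hadj _ _).mpr h)
        · intro h
          exact h3 w hwD h

/-- iterate: either the whole component, or the length is `k + 1` -/
lemma iter_inv (hadj : ∀ u v, G.Adj u v ↔ adj u v = true) (hn : ∀ u v, G.Adj u v → u < n ∧ v < n)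
    (hf : ∀ u, u < n → ∀ v, v < n → (G.Adj u v ↔ u ≠ v ∧ |f u - f v| ≤ 1)) (ha : a < n)
    (hmin : ∀ v, G.Reachable a v → f a ≤ f v) (k : ℕ) :
    Inv G f n a ((stepO adj n)^[k] [a]) ∧
      (((stepO adj n)^[k] [a]).length = k + 1 ∨
        ∀ v, v ∈ (stepO adj n)^[k] [a] ↔ G.Reachable a v) := by
  induction k with
  | zero =>
    refine ⟨⟨by simp, by simp, by simp, by simpa using ha, by simp, ?_⟩, by simp⟩
    intro u hu v _ hr
    simp only [Function.iterate_zero, id_eq, List.mem_singleton] at hu
    subst hu
    exact Or.inl (hmin v hr)
  | succ k ih =>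
    obtain ⟨h1, h2⟩ := ih
    rw [Function.iterate_succ_apply']
    set D := (stepO adj n)^[k] [a] with hDd
    cases hb : best adj n D with
    | nil =>
      have hs : stepO adj n D = D := by simp [stepO, hb]
      rw [hs]
      exact ⟨h1, Or.inr (full_of_nil hadj hn h1 (best_nil hb))⟩
    | cons vs l =>
      have hs : stepO adj n D = D ++ [vs] := by simp [stepO, hb]
      rw [hs]
      refine ⟨step_inv hadj hn hf h1 hb, ?_⟩
      rcases h2 with h2 | h2
      · left
        simp [h2]
      · exfalso
        have hmb : vs ∈ best adj n D := by rw [hb]; simp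
        obtain ⟨hlt, hnD, u, huD, hu⟩ := mem_cand.mp (mem_best.mp hmb).1
        apply hnD
        rw [h2]
        exact (h1.reach u huD).trans ((hadj _ _).mpr hu).symm.reachable

end

theorem stOrdr_75 : StOrdr := by
  intro adj G f n a hadj hn hf ha hmin
  obtain ⟨hI, hfull⟩ := iter_inv (f := f) hadj hn hf ha hmin n
  have hord : ordO adj n a = (stepO adj n)^[n] [a] := rfl
  rw [hord]
  set D := (stepO adj n)^[n] [a] with hD
  refine ⟨?_, ?_⟩
  · rcases hfull with h | h
    · exfalso
      have h1 : D.toFinset ⊆ Finset.range n := by
        intro x hx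
        rw [List.mem_toFinset] at hx
        exact Finset.mem_range.mpr (hI.lt x hx)
      have h2 := Finset.card_le_card h1
      rw [List.toFinset_card_of_nodup hI.nodup, Finset.card_range, h] at h2
      omega
    · exact h
  · unfold chk
    simp only [List.all_eq_true, List.mem_range]
    intro i hi j hj k hk
    by_cases h : i < j ∧ j < k ∧ adj (D.getD i 0) (D.getD k 0) = true
    · obtain ⟨hij, hjk, hik⟩ := h
      have gi : D.getD i 0 = D[i] := List.getD_eq_getElem _ _ hi
      have gj : D.getD j 0 = D[j] := List.getD_eq_getElem _ _ hj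
      have gk : D.getD k 0 = D[k] := List.getD_eq_getElem _ _ hk
      rw [gi, gk] at hik
      have hpw := List.pairwise_iff_getElem.mp hI.pw
      have l1 := hpw i j hi hj hij
      have l2 := hpw j k hj hk hjk
      have n1 : D[i] ≠ D[j] := by
        intro he
        have := (List.Nodup.getElem_inj_iff hI.nodup).mp he
        omega
      have n2 : D[j] ≠ D[k] := by
        intro he
        have := (List.Nodup.getElem_inj_iff hI.nodup).mp he
        omega
      have hik' : G.Adj D[i] D[k] := (hadj _ _).mpr hik
      have key : G.Adj D[i] D[j] ∧ G.Adj D[j] D[k] := by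
        rcases l1 with l1 | l1
        · rcases l2 with l2 | l2
          · have ii := hI.lt _ (List.getElem_mem hi)
            have jj := hI.lt _ (List.getElem_mem hj)
            have kk := hI.lt _ (List.getElem_mem hk)
            have h3 := abs_le.mp ((hf _ ii _ kk).mp hik').2
            refine ⟨(hf _ ii _ jj).mpr ⟨n1, ?_⟩, (hf _ jj _ kk).mpr ⟨n2, ?_⟩⟩
            · rw [abs_le]
              constructor <;> linarith [h3.1, h3.2]
            · rw [abs_le]
              constructor <;> linarith [h3.1, h3.2]
          · have h3 := tw_adj l2 n2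
            refine ⟨?_, h3⟩
            have := (l2 D[i]).mpr (Or.inr hik'.symm)
            rcases this with h | h
            · exact absurd h n1
            · exact h.symm
        · have h3 := tw_adj l1 n1
          refine ⟨h3, ?_⟩
          have := (l1 D[k]).mp (Or.inr hik')
          rcases this with h | h
          · exact absurd h.symm n2
          · exact h
      rw [gi, gj, gk, (hadj _ _).mp key.1, (hadj _ _).mp key.2]
      simp
    · have h' : (decide (i < j) && (decide (j < k) && adj (D.getD i 0) (D.getD k 0))) = false := by
        by_contra hc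
        rw [Bool.not_eq_false] at hc
        simp only [Bool.and_eq_true, decide_eq_true_eq] at hc
        exact h hc
      rw [h']
      rfl

end Pool.Agent.Lib.MP_0b43f8_lc.Grid.Ordr75
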