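import Pool.Agent.Lib.MP_0b43f8_lc.Grid.Stmts
import Pool.Agent.Lib.MP_0b43f8_lc.PTA

/-!
# PTO, PTC: the order and the check are computed in polynomial time
-/

set_option autoImplicit false

namespace Pool.Agent.Lib.MP_0b43f8_lc.Grid

open Pool.Agent.Lib.MP_0b43f8_lc Pool.Agent.Lib.PT

namespace P52

@[fun_prop] theorem ptime_adj {α : Type} [Enc α] {n : α → ℕ} {w : α → List Bool} {u v : α → ℕ}
    (hn : PTime n) (hw : PTime w) (hu : PTime u) (hv : PTime v) :
    PTime fun a => adjM (n a) (w a) (u a) (v a) :=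
  stPTA.comp (g := fun a => ((n a, w a), (u a, v a))) (by fun_prop)

/-- The size of a list of bounded numbers. -/
theorem sz_list_le {l : List ℕ} {m B : ℕ} (hl : l.length ≤ m) (h : ∀ x ∈ l, x ≤ B) :
    sz l ≤ m * (2 * B + 2) + 1 := by
  have h1 : sz l ≤ l.length * (2 * B + 1 + 1) + 1 := by
    refine sz_le_of_forall fun x hx => ?_
    have := h x hx
    rw [sz_nat]
    omega
  have h2 := Nat.mul_le_mul_right (2 * B + 2) hl
  have h3 : 2 * B + 1 + 1 = 2 * B + 2 := rfl
  rw [h3] at h1
  omega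

/-- Polynomially bounded functions from polynomial time functions. -/
theorem pb_nat {α : Type} [Enc α] {f : α → ℕ} (hf : PTime f) : PB f :=
  hf.sz_le.mono fun a => by rw [sz_nat]; omega

theorem ptime_chk {α : Type} [Enc α] {n : α → ℕ} {w : α → List Bool} {o : α → List ℕ}
    (hn : PTime n) (hw : PTime w) (ho : PTime o) :
    PTime fun a => chk (adjM (n a) (w a)) (o a) := by
  have key : PTime fun p : (ℕ × List Bool) × List ℕ => chk (adjM p.1.1 p.1.2) p.2 := by
    unfold chk
    refine PTime.all (f := fun (p : (ℕ × List Bool) × List ℕ) (i : ℕ) =>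
      (List.range p.2.length).all fun j =>
        (List.range p.2.length).all fun k => !(decide (i < j) && (decide (j < k) &&
          adjM p.1.1 p.1.2 (p.2.getD i 0) (p.2.getD k 0))) ||
          (adjM p.1.1 p.1.2 (p.2.getD i 0) (p.2.getD j 0) &&
          adjM p.1.1 p.1.2 (p.2.getD j 0) (p.2.getD k 0))) (by fun_prop) ?_
    refine PTime.all (f := fun (p : ((ℕ × List Bool) × List ℕ) × ℕ) (j : ℕ) =>
        (List.range p.1.2.length).all fun k => !(decide (p.2 < j) && (decide (j < k) &&
          adjM p.1.1.1 p.1.1.2 (p.1.2.getD p.2 0) (p.1.2.getD k 0))) ||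
          (adjM p.1.1.1 p.1.1.2 (p.1.2.getD p.2 0) (p.1.2.getD j 0) &&
          adjM p.1.1.1 p.1.1.2 (p.1.2.getD j 0) (p.1.2.getD k 0))) (by fun_prop) ?_
    refine PTime.all (f := fun (p : (((ℕ × List Bool) × List ℕ) × ℕ) × ℕ) (k : ℕ) =>
        !(decide (p.1.2 < p.2) && (decide (p.2 < k) &&
          adjM p.1.1.1.1 p.1.1.1.2 (p.1.1.2.getD p.1.2 0) (p.1.1.2.getD k 0))) ||
          (adjM p.1.1.1.1 p.1.1.1.2 (p.1.1.2.getD p.1.2 0) (p.1.1.2.getD p.2 0) &&
          adjM p.1.1.1.1 p.1.1.1.2 (p.1.1.2.getD p.2 0) (p.1.1.2.getD k 0))) (by fun_prop) ?_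
    fun_prop
  exact key.comp (g := fun a => ((n a, w a), o a)) (by fun_prop)

theorem ptime_cn1 {α : Type} [Enc α] {n : α → ℕ} {w : α → List Bool} {D : α → List ℕ}
    {v : α → ℕ} (hn : PTime n) (hw : PTime w) (hD : PTime D) (hv : PTime v) :
    PTime fun a => cn1 (adjM (n a) (w a)) (D a) (v a) := by
  have key : PTime fun p : (ℕ × List Bool) × List ℕ × ℕ =>
      cn1 (adjM p.1.1 p.1.2) p.2.1 p.2.2 := by
    unfold cn1
    refine (PTime.filter (l := fun p : (ℕ × List Bool) × List ℕ × ℕ => p.2.1)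
      (f := fun (p : (ℕ × List Bool) × List ℕ × ℕ) (x : ℕ) => adjM p.1.1 p.1.2 p.2.2 x)
      (by fun_prop) (by fun_prop)).length
  exact key.comp (g := fun a => ((n a, w a), (D a, v a))) (by fun_prop)

theorem ptime_cn2 {α : Type} [Enc α] {n : α → ℕ} {w : α → List Bool} {D : α → List ℕ}
    {v : α → ℕ} (hn : PTime n) (hw : PTime w) (hD : PTime D) (hv : PTime v) :
    PTime fun a => cn2 (adjM (n a) (w a)) (n a) (D a) (v a) := by
  have key : PTime fun p : (ℕ × List Bool) × List ℕ × ℕ =>
      cn2 (adjM p.1.1 p.1.2) p.1.1 p.2.1 p.2.2 := by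
    unfold cn2
    refine (PTime.filter (l := fun p : (ℕ × List Bool) × List ℕ × ℕ => List.range p.1.1)
      (f := fun (p : (ℕ × List Bool) × List ℕ × ℕ) (x : ℕ) =>
        adjM p.1.1 p.1.2 p.2.2 x && !(decide (x ∈ p.2.1)))
      (by fun_prop) ?_).length
    have h : PTime fun q : ((ℕ × List Bool) × List ℕ × ℕ) × ℕ => decide (q.2 ∈ q.1.2.1) :=
      PTime.mem (by fun_prop) (by fun_prop)
    exact PTime.and (by fun_prop) h.not
  exact key.comp (g := fun a => ((n a, w a), (D a, v a))) (by fun_prop)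

theorem ptime_score {α : Type} [Enc α] {n : α → ℕ} {w : α → List Bool} {D : α → List ℕ}
    {v : α → ℕ} (hn : PTime n) (hw : PTime w) (hD : PTime D) (hv : PTime v) :
    PTime fun a => score (adjM (n a) (w a)) (n a) (D a) (v a) := by
  unfold score
  have h1 := ptime_cn1 hn hw hD hv
  have h2 := ptime_cn2 hn hw hD hv
  fun_prop

theorem ptime_cand {α : Type} [Enc α] {n : α → ℕ} {w : α → List Bool} {D : α → List ℕ}
    (hn : PTime n) (hw : PTime w) (hD : PTime D) :
    PTime fun a => cand (adjM (n a) (w a)) (n a) (D a) := by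
  have key : PTime fun p : (ℕ × List Bool) × List ℕ =>
      cand (adjM p.1.1 p.1.2) p.1.1 p.2 := by
    unfold cand
    refine PTime.filter (l := fun p : (ℕ × List Bool) × List ℕ => List.range p.1.1)
      (f := fun (p : (ℕ × List Bool) × List ℕ) (v : ℕ) =>
        !(decide (v ∈ p.2)) && p.2.any fun w => adjM p.1.1 p.1.2 v w) (by fun_prop) ?_
    have h : PTime fun q : ((ℕ × List Bool) × List ℕ) × ℕ => decide (q.2 ∈ q.1.2) :=
      PTime.mem (by fun_prop) (by fun_prop)
    refine PTime.and h.not ?_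
    exact PTime.any (l := fun q : ((ℕ × List Bool) × List ℕ) × ℕ => q.1.2)
      (f := fun (q : ((ℕ × List Bool) × List ℕ) × ℕ) (w : ℕ) => adjM q.1.1.1 q.1.1.2 q.2 w)
      (by fun_prop) (by fun_prop)
  exact key.comp (g := fun a => ((n a, w a), D a)) (by fun_prop)

theorem ptime_best {α : Type} [Enc α] {n : α → ℕ} {w : α → List Bool} {D : α → List ℕ}
    (hn : PTime n) (hw : PTime w) (hD : PTime D) :
    PTime fun a => best (adjM (n a) (w a)) (n a) (D a) := by
  have key : PTime fun p : (ℕ × List Bool) × List ℕ =>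
      best (adjM p.1.1 p.1.2) p.1.1 p.2 := by
    unfold best
    refine PTime.filter (l := fun p : (ℕ × List Bool) × List ℕ => cand (adjM p.1.1 p.1.2) p.1.1 p.2)
      (f := fun (p : (ℕ × List Bool) × List ℕ) (v : ℕ) =>
        (cand (adjM p.1.1 p.1.2) p.1.1 p.2).all fun u =>
          decide (score (adjM p.1.1 p.1.2) p.1.1 p.2 u ≤ score (adjM p.1.1 p.1.2) p.1.1 p.2 v))
      (ptime_cand (by fun_prop) (by fun_prop) (by fun_prop)) ?_
    refine PTime.all (l := fun q : ((ℕ × List Bool) × List ℕ) × ℕ =>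
        cand (adjM q.1.1.1 q.1.1.2) q.1.1.1 q.1.2)
      (f := fun (q : ((ℕ × List Bool) × List ℕ) × ℕ) (u : ℕ) =>
        decide (score (adjM q.1.1.1 q.1.1.2) q.1.1.1 q.1.2 u ≤
          score (adjM q.1.1.1 q.1.1.2) q.1.1.1 q.1.2 q.2))
      (ptime_cand (by fun_prop) (by fun_prop) (by fun_prop)) ?_
    exact PTime.le (ptime_score (by fun_prop) (by fun_prop) (by fun_prop) (by fun_prop))
      (ptime_score (by fun_prop) (by fun_prop) (by fun_prop) (by fun_prop))
  exact key.comp (g := fun a => ((n a, w a), D a)) (by fun_prop)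

theorem stepO_iter (adj : ℕ → ℕ → Bool) (n a : ℕ) (i : ℕ) :
    ((stepO adj n)^[i] [a]).length ≤ i + 1 ∧ ∀ x ∈ (stepO adj n)^[i] [a], x ≤ a + n := by
  induction i with
  | zero => simp
  | succ i ih =>
    rw [Function.iterate_succ_apply']
    constructor
    · unfold stepO
      rw [List.length_append]
      have := List.length_take_le 1 (best adj n ((stepO adj n)^[i] [a]))
      have := ih.1
      unfold stepO at *
      omega
    · intro x hx
      have hx' : x ∈ (stepO adj n)^[i] [a] ++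
          (best adj n ((stepO adj n)^[i] [a])).take 1 := hx
      rcases List.mem_append.1 hx' with h | h
      · exact ih.2 x h
      · have h1 := List.mem_of_mem_take h
        have h2 := List.mem_range.1 (List.mem_filter.1 (List.mem_filter.1 h1).1).1
        omega

theorem ptime_ordO {α : Type} [Enc α] {n : α → ℕ} {w : α → List Bool} {v : α → ℕ}
    (hn : PTime n) (hw : PTime w) (hv : PTime v) :
    PTime fun a => ordO (adjM (n a) (w a)) (n a) (v a) := by
  have hB : PB fun a => (n a + 1) * (2 * (v a + n a) + 2) + 1 := by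
    have h1 := pb_nat hn
    have h2 := pb_nat hv
    exact ((h1.add (PB.const 1)).mul (((PB.const 2).mul (h2.add h1)).add (PB.const 2))).add
      (PB.const 1)
  refine PTime.iterate (n := n) (s := fun a => [v a])
    (f := fun a D => stepO (adjM (n a) (w a)) (n a) D) hn (by fun_prop) ?_ hB ?_
  · unfold stepO
    have h1 : PTime fun p : α × List ℕ => n p.1 := hn.comp (by fun_prop)
    have h2 : PTime fun p : α × List ℕ => w p.1 := hw.comp (by fun_prop)
    have h3 := ptime_best h1 h2 (D := fun p : α × List ℕ => p.2) (by fun_prop)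
    fun_prop
  · intro a i hi
    obtain ⟨h1, h2⟩ := stepO_iter (adjM (n a) (w a)) (n a) (v a) i
    exact sz_list_le (h1.trans (by omega)) h2

end P52

open P52 in
theorem stPTO_52 : StPTO := ptime_ordO (by fun_prop) (by fun_prop) (by fun_prop)

open P52 in
theorem stPTCh_52 : StPTCh := ptime_chk (by fun_prop) (by fun_prop) (by fun_prop)

end Pool.Agent.Lib.MP_0b43f8_lc.Grid
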