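import Pool.Agent.Lib.MP_0b43f8_lc.Grid.PTSt52

/-!
# PTG: the approximation algorithm runs in polynomial time
-/

set_option autoImplicit false

namespace Pool.Agent.Lib.MP_0b43f8_lc.Grid

open Pool.Agent.Lib.MP_0b43f8_lc Pool.Agent.Lib.PT

namespace P52

theorem ptime_sucA {α : Type} [Enc α] {n : α → ℕ} {w : α → List Bool} {s : α → ℕ}
    (hn : PTime n) (hw : PTime w) (hs : PTime s) :
    PTime fun a => sucA (adjM (n a) (w a)) (n a) (s a) := by
  have key : PTime fun p : (ℕ × List Bool) × ℕ => sucA (adjM p.1.1 p.1.2) p.1.1 p.2 := by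
    unfold sucA
    refine PTime.and (by fun_prop) ?_
    refine PTime.any (l := fun p : (ℕ × List Bool) × ℕ => List.range p.1.1)
      (f := fun (p : (ℕ × List Bool) × ℕ) (a : ℕ) =>
        chk (adjM p.1.1 p.1.2) (ordO (adjM p.1.1 p.1.2) p.1.1 a) &&
          sucO (adjM p.1.1 p.1.2) (ordO (adjM p.1.1 p.1.2) p.1.1 a) p.2) (by fun_prop) ?_
    have h1 : PTime fun q : ((ℕ × List Bool) × ℕ) × ℕ =>
        ordO (adjM q.1.1.1 q.1.1.2) q.1.1.1 q.2 :=
      ptime_ordO (by fun_prop) (by fun_prop) (by fun_prop)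
    exact PTime.and (ptime_chk (by fun_prop) (by fun_prop) h1)
      (ptime_sucO (by fun_prop) (by fun_prop) h1 (by fun_prop))
  exact key.comp (g := fun a => ((n a, w a), s a)) (by fun_prop)

theorem gg_fold_le (adj : ℕ → ℕ → Bool) (n N : ℕ) (l : List ℕ) (hl : ∀ s ∈ l, s ≤ N) :
    ∀ g, g ≤ N → l.foldl (fun g s => bif sucA adj n s then s else g) g ≤ N := by
  induction l with
  | nil => intro g hg; exact hg
  | cons x l ih =>
    intro g hg
    rw [List.foldl_cons]
    apply ih (fun s hs => hl s (List.mem_cons_of_mem _ hs))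
    cases sucA adj n x
    · exact hg
    · exact hl x List.mem_cons_self

theorem ptime_gg : PTime fun p : ℕ × List Bool => gg (adjM p.1 p.2) p.1 := by
  have hB : PB fun p : ℕ × List Bool => 2 * p.1 + 1 :=
    ((PB.const 2).mul (pb_nat (by fun_prop))).add (PB.const 1)
  refine PTime.foldl (l := fun p : ℕ × List Bool => List.range (p.1 + 1))
    (s := fun _ => (0 : ℕ)) (f := fun (p : ℕ × List Bool) (g s : ℕ) =>
      bif sucA (adjM p.1 p.2) p.1 s then s else g) (by fun_prop) (PTime.const 0) ?_ hB ?_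
  · exact PTime.cond (ptime_sucA (by fun_prop) (by fun_prop) (by fun_prop)) (by fun_prop)
      (by fun_prop)
  · intro p l₁ l₂ h
    have h1 := gg_fold_le (adjM p.1 p.2) p.1 p.1 l₁ (fun s hs => by
      have h2 : s ∈ List.range (p.1 + 1) := by
        rw [h]
        exact List.mem_append_left _ hs
      have := List.mem_range.1 h2
      omega) 0 (Nat.zero_le _)
    rw [sz_nat]
    omega

end P52

open P52 in
theorem stPTG_52 : StPTG := by
  unfold StPTG outN
  have h := ptime_gg
  fun_prop

end Pool.Agent.Lib.MP_0b43f8_lc.Grid
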