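import Pool.Agent.Lib.MP_0b43f8_lc.Grid.PTCh52

/-!
# PTS: the strands are computed in polynomial time
-/

set_option autoImplicit false

namespace Pool.Agent.Lib.MP_0b43f8_lc.Grid

open Pool.Agent.Lib.MP_0b43f8_lc Pool.Agent.Lib.PT

namespace P52

/-- The list of the first `m` values of a function given by course-of-values recursion. -/
theorem ptime_build {α : Type} [Enc α] {m : α → ℕ} {F : α → ℕ → ℕ} {g : α → List ℕ → ℕ}
    {B : α → ℕ} (hm : PTime m) (hg : PTime fun p : α × List ℕ => g p.1 p.2) (hB : PB B)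
    (hF : ∀ a k, k < m a → F a k = g a ((List.range k).map (F a)))
    (hFB : ∀ a k, k < m a → F a k ≤ B a) :
    PTime fun a => (List.range (m a)).map (F a) := by
  have key : ∀ a i, i ≤ m a → (fun l => l ++ [g a l])^[i] [] = (List.range i).map (F a) := by
    intro a i
    induction i with
    | zero => intro _; rfl
    | succ i ih =>
      intro hi
      rw [Function.iterate_succ_apply', ih (by omega), List.range_succ, List.map_append,
        ← hF a i (by omega)]
      rfl
  have hBB : PB fun a => m a * (2 * B a + 2) + 1 :=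
    ((pb_nat hm).mul (((PB.const 2).mul hB).add (PB.const 2))).add (PB.const 1)
  refine (PTime.iterate (n := m) (s := fun _ => ([] : List ℕ))
    (f := fun a l => l ++ [g a l]) hm (PTime.const _) (by fun_prop) hBB ?_).of_eq
    fun a => key a (m a) le_rfl
  intro a i hi
  rw [key a i hi]
  refine sz_list_le (by simpa using hi) ?_
  intro x hx
  obtain ⟨k, hk, rfl⟩ := List.mem_map.1 hx
  exact hFB a k (by have := List.mem_range.1 hk; omega)

theorem ptime_qO {α : Type} [Enc α] {n : α → ℕ} {w : α → List Bool} {o : α → List ℕ}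
    {i : α → ℕ} (hn : PTime n) (hw : PTime w) (ho : PTime o) (hi : PTime i) :
    PTime fun a => qO (adjM (n a) (w a)) (o a) (i a) := by
  have key : PTime fun p : (ℕ × List Bool) × List ℕ × ℕ =>
      qO (adjM p.1.1 p.1.2) p.2.1 p.2.2 := by
    unfold qO
    have h := (PTime.filter (l := fun p : (ℕ × List Bool) × List ℕ × ℕ => List.range p.2.1.length)
      (f := fun (p : (ℕ × List Bool) × List ℕ × ℕ) (x : ℕ) => decide (p.2.2 < x) &&
        adjM p.1.1 p.1.2 (p.2.1.getD p.2.2 0) (p.2.1.getD x 0))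
      (by fun_prop) (by fun_prop)).length
    fun_prop
  exact key.comp (g := fun a => ((n a, w a), (o a, i a))) (by fun_prop)

theorem ptime_eO {α : Type} [Enc α] {n : α → ℕ} {w : α → List Bool} {o : α → List ℕ}
    {i : α → ℕ} (hn : PTime n) (hw : PTime w) (ho : PTime o) (hi : PTime i) :
    PTime fun a => eO (adjM (n a) (w a)) (o a) (i a) := by
  have key : PTime fun p : (ℕ × List Bool) × List ℕ × ℕ =>
      eO (adjM p.1.1 p.1.2) p.2.1 p.2.2 := by
    unfold eO
    refine (PTime.filter (l := fun p : (ℕ × List Bool) × List ℕ × ℕ => List.range (p.2.2 + 1))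
      (f := fun (p : (ℕ × List Bool) × List ℕ × ℕ) (x : ℕ) =>
        decide (qO (adjM p.1.1 p.1.2) p.2.1 x ≤ p.2.2))
      (by fun_prop) ?_).length
    exact PTime.le (ptime_qO (by fun_prop) (by fun_prop) (by fun_prop) (by fun_prop))
      (by fun_prop)
  exact key.comp (g := fun a => ((n a, w a), (o a, i a))) (by fun_prop)

theorem qO_le (adj : ℕ → ℕ → Bool) (o : List ℕ) (i : ℕ) : qO adj o i ≤ i + (1 + o.length) := by
  unfold qO
  have := List.length_filter_le (fun w => decide (i < w) &&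
    adj (o.getD i 0) (o.getD w 0)) (List.range o.length)
  rw [List.length_range] at this
  omega

theorem eO_le (adj : ℕ → ℕ → Bool) (o : List ℕ) (a : ℕ) : eO adj o a ≤ a + 1 := by
  unfold eO
  have := List.length_filter_le (fun w => decide (qO adj o w ≤ a)) (List.range (a + 1))
  rw [List.length_range] at this
  omega

/-- The next strand, computed from the list of the values of a strand. -/
def nxF (q el : ℕ → ℕ) (u : List ℕ) : ℕ → ℕ
  | 0 => el (u.getD 1 0)
  | j + 1 => max (el (u.getD (j + 2) 0)) (q (nxF q el u j))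

/-- The rows. -/
def rowF (q el : ℕ → ℕ) (t m i : ℕ) : List ℕ :=
  (fun u => (List.range m).map (nxF q el u))^[i] ((List.range m).map (tt q t))

theorem getD_map_range (m j : ℕ) (f : ℕ → ℕ) (hj : j < m) :
    ((List.range m).map f).getD j 0 = f j := by
  rw [List.getD_eq_getElem?_getD, List.getElem?_map, List.getElem?_range hj]
  rfl

theorem rowF_eq (q el : ℕ → ℕ) (t m : ℕ) : ∀ i j, i + j < m →
    (rowF q el t m i).getD j 0 = st q el t i j := by
  intro i
  induction i with
  | zero =>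
    intro j hj
    unfold rowF
    rw [Function.iterate_zero, id_eq, getD_map_range m j _ (by omega)]
    rfl
  | succ i ih =>
    have hrow : rowF q el t m (i + 1) = (List.range m).map (nxF q el (rowF q el t m i)) := by
      unfold rowF
      rw [Function.iterate_succ_apply']
    intro j
    rw [hrow]
    induction j with
    | zero =>
      intro hj
      rw [getD_map_range m 0 _ (by omega)]
      unfold nxF
      rw [ih 1 (by omega)]
      rfl
    | succ j ihj =>
      intro hj
      rw [getD_map_range m (j + 1) _ (by omega)]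
      have h1 := ihj (by omega)
      rw [getD_map_range m j _ (by omega)] at h1
      unfold nxF
      rw [h1, ih (j + 2) (by omega)]
      rfl

/-- Bounded rows. -/
def RB (b c : ℕ) (u : List ℕ) : Prop := ∀ j, u.getD j 0 ≤ b + j * c

theorem RB_map {m b c : ℕ} {f : ℕ → ℕ} (h : ∀ j, j < m → f j ≤ b + j * c) :
    RB b c ((List.range m).map f) := by
  intro j
  by_cases hj : j < m
  · rw [getD_map_range m j f hj]
    exact h j hj
  · rw [List.getD_eq_getElem?_getD, List.getElem?_eq_none (by simpa using hj)]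
    exact Nat.zero_le _

theorem nxF_le {q el : ℕ → ℕ} {c b : ℕ} (hc : 1 ≤ c) (hq : ∀ i, q i ≤ i + c)
    (hel : ∀ i, el i ≤ i + 1) {u : List ℕ} (hu : RB b c u) (j : ℕ) :
    nxF q el u j ≤ (b + 2 * c) + j * c := by
  induction j with
  | zero =>
    unfold nxF
    have h1 := hel (u.getD 1 0)
    have h2 := hu 1
    omega
  | succ j ih =>
    unfold nxF
    have h1 := hel (u.getD (j + 2) 0)
    have h2 := hu (j + 2)
    have h3 := hq (nxF q el u j)
    have e1 : (j + 2) * c = j * c + 2 * c := by ring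
    have e2 : (j + 1) * c = j * c + c := by ring
    rw [e1] at h2
    rw [e2]
    refine max_le ?_ ?_ <;> omega

theorem tt_le {q : ℕ → ℕ} {c : ℕ} (hq : ∀ i, q i ≤ i + c) (t j : ℕ) : tt q t j ≤ t + j * c := by
  induction j with
  | zero => unfold tt; omega
  | succ j ih =>
    unfold tt
    have h3 := hq (tt q t j)
    have e2 : (j + 1) * c = j * c + c := by ring
    rw [e2]
    omega

theorem rowF_RB {q el : ℕ → ℕ} {c : ℕ} (hc : 1 ≤ c) (hq : ∀ i, q i ≤ i + c)
    (hel : ∀ i, el i ≤ i + 1) (t m i : ℕ) : RB (t + 2 * i * c) c (rowF q el t m i) := by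
  induction i with
  | zero =>
    unfold rowF
    rw [Function.iterate_zero, id_eq]
    refine RB_map fun j _ => ?_
    have := tt_le hq t j
    omega
  | succ i ih =>
    unfold rowF
    rw [Function.iterate_succ_apply']
    refine RB_map fun j _ => ?_
    have h1 := nxF_le hc hq hel ih j
    have e1 : 2 * (i + 1) * c = 2 * i * c + 2 * c := by ring
    rw [e1]
    have h2 : t + (2 * i * c + 2 * c) = t + 2 * i * c + 2 * c := by ring
    rw [h2]
    exact h1

theorem rowF_mem {q el : ℕ → ℕ} {c : ℕ} (hc : 1 ≤ c) (hq : ∀ i, q i ≤ i + c)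
    (hel : ∀ i, el i ≤ i + 1) (t m i : ℕ) : (rowF q el t m i).length = m ∧
    ∀ x ∈ rowF q el t m i, x ≤ t + 2 * i * c + m * c := by
  have hlen : (rowF q el t m i).length = m := by
    cases i with
    | zero => unfold rowF; rw [Function.iterate_zero, id_eq]; simp
    | succ i => unfold rowF; rw [Function.iterate_succ_apply']; simp
  refine ⟨hlen, fun x hx => ?_⟩
  obtain ⟨j, hj, rfl⟩ := List.mem_iff_getElem.1 hx
  have h1 := rowF_RB hc hq hel t m i j
  rw [List.getD_eq_getElem?_getD, List.getElem?_eq_getElem hj, Option.getD_some] at h1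
  have h2 : j * c ≤ m * c := Nat.mul_le_mul_right _ (by omega)
  omega

/-- The context: graph, order. -/
abbrev Co : Type := (ℕ × List Bool) × List ℕ

theorem ptime_ttL : PTime fun p : Co × ℕ × ℕ =>
    (List.range p.2.2).map (tt (qO (adjM p.1.1.1 p.1.1.2) p.1.2) p.2.1) := by
  have hL : PTime fun p : Co × ℕ × ℕ => p.1.2.length := by fun_prop
  have hB : PB fun p : Co × ℕ × ℕ => p.2.1 + p.2.2 * (1 + p.1.2.length) :=
    (pb_nat (by fun_prop)).add ((pb_nat (by fun_prop)).mul ((PB.const 1).add (pb_nat hL)))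
  refine ptime_build (m := fun p : Co × ℕ × ℕ => p.2.2)
    (F := fun p : Co × ℕ × ℕ => tt (qO (adjM p.1.1.1 p.1.1.2) p.1.2) p.2.1)
    (g := fun (p : Co × ℕ × ℕ) (l : List ℕ) => bif decide (l.length = 0) then p.2.1 else
      qO (adjM p.1.1.1 p.1.1.2) p.1.2 (l.getD (l.length - 1) 0))
    (by fun_prop) ?_ hB ?_ ?_
  · refine PTime.cond (by fun_prop) (by fun_prop) ?_
    exact ptime_qO (by fun_prop) (by fun_prop) (by fun_prop) (by fun_prop)
  · intro p k hk
    cases k with
    | zero => rfl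
    | succ k =>
      rw [List.length_map, List.length_range]
      simp only [Nat.succ_ne_zero, decide_false, cond_false, Nat.add_sub_cancel]
      rw [getD_map_range (k + 1) k _ (by omega)]
      rfl
  · intro p k hk
    have h1 := tt_le (q := qO (adjM p.1.1.1 p.1.1.2) p.1.2) (qO_le _ _) p.2.1 k
    have h2 : k * (1 + p.1.2.length) ≤ p.2.2 * (1 + p.1.2.length) :=
      Nat.mul_le_mul_right _ hk.le
    omega

theorem ptime_nxL : PTime fun p : Co × ℕ × List ℕ =>
    (List.range p.2.1).map (nxF (qO (adjM p.1.1.1 p.1.1.2) p.1.2)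
      (eO (adjM p.1.1.1 p.1.1.2) p.1.2) p.2.2) := by
  have hL : PTime fun p : Co × ℕ × List ℕ => p.1.2.length := by fun_prop
  have hu : PB fun p : Co × ℕ × List ℕ => sz p.2.2 :=
    PTime.sz_le (f := fun p : Co × ℕ × List ℕ => p.2.2) (by fun_prop)
  have hB : PB fun p : Co × ℕ × List ℕ =>
      (sz p.2.2 + 2 * (1 + p.1.2.length)) + p.2.1 * (1 + p.1.2.length) :=
    (hu.add ((PB.const 2).mul ((PB.const 1).add (pb_nat hL)))).add
      ((pb_nat (by fun_prop)).mul ((PB.const 1).add (pb_nat hL)))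
  refine ptime_build (m := fun p : Co × ℕ × List ℕ => p.2.1)
    (F := fun p : Co × ℕ × List ℕ => nxF (qO (adjM p.1.1.1 p.1.1.2) p.1.2)
      (eO (adjM p.1.1.1 p.1.1.2) p.1.2) p.2.2)
    (g := fun (p : Co × ℕ × List ℕ) (l : List ℕ) => bif decide (l.length = 0) then
      eO (adjM p.1.1.1 p.1.1.2) p.1.2 (p.2.2.getD 1 0) else
      max (eO (adjM p.1.1.1 p.1.1.2) p.1.2 (p.2.2.getD (l.length + 1) 0))
        (qO (adjM p.1.1.1 p.1.1.2) p.1.2 (l.getD (l.length - 1) 0)))
    (by fun_prop) ?_ hB ?_ ?_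
  · refine PTime.cond (by fun_prop) ?_ (PTime.max ?_ ?_)
    · exact ptime_eO (by fun_prop) (by fun_prop) (by fun_prop) (by fun_prop)
    · exact ptime_eO (by fun_prop) (by fun_prop) (by fun_prop) (by fun_prop)
    · exact ptime_qO (by fun_prop) (by fun_prop) (by fun_prop) (by fun_prop)
  · intro p k hk
    cases k with
    | zero => rfl
    | succ k =>
      rw [List.length_map, List.length_range]
      simp only [Nat.succ_ne_zero, decide_false, cond_false, Nat.add_sub_cancel]
      rw [getD_map_range (k + 1) k _ (by omega)]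
      rfl
  · intro p k hk
    have hRB : RB (sz p.2.2) (1 + p.1.2.length) p.2.2 := by
      intro j
      by_cases hj : j < p.2.2.length
      · have h1 : sz (p.2.2.getD j 0) ≤ sz p.2.2 := by
          apply sz_mem_le
          rw [List.getD_eq_getElem?_getD, List.getElem?_eq_getElem hj, Option.getD_some]
          exact List.getElem_mem hj
        rw [sz_nat] at h1
        omega
      · rw [List.getD_eq_getElem?_getD, List.getElem?_eq_none (by simpa using hj)]
        exact Nat.zero_le _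
    have h1 := nxF_le (c := 1 + p.1.2.length) (by omega)
      (qO_le (adjM p.1.1.1 p.1.1.2) p.1.2) (eO_le (adjM p.1.1.1 p.1.1.2) p.1.2) hRB k
    have h2 : k * (1 + p.1.2.length) ≤ p.2.1 * (1 + p.1.2.length) :=
      Nat.mul_le_mul_right _ hk.le
    omega

theorem ptime_rowF : PTime fun p : Co × ℕ × ℕ × ℕ =>
    rowF (qO (adjM p.1.1.1 p.1.1.2) p.1.2) (eO (adjM p.1.1.1 p.1.1.2) p.1.2)
      p.2.1 p.2.2.1 p.2.2.2 := by
  have hL : PTime fun p : Co × ℕ × ℕ × ℕ => p.1.2.length := by fun_prop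
  have hB1 : PB fun p : Co × ℕ × ℕ × ℕ => p.2.1 + 2 * p.2.2.2 * (1 + p.1.2.length) +
      p.2.2.1 * (1 + p.1.2.length) :=
    ((pb_nat (by fun_prop)).add (((PB.const 2).mul (pb_nat (by fun_prop))).mul
      ((PB.const 1).add (pb_nat hL)))).add
      ((pb_nat (by fun_prop)).mul ((PB.const 1).add (pb_nat hL)))
  have hB : PB fun p : Co × ℕ × ℕ × ℕ => p.2.2.1 * (2 * (p.2.1 +
      2 * p.2.2.2 * (1 + p.1.2.length) + p.2.2.1 * (1 + p.1.2.length)) + 2) + 1 :=
    ((pb_nat (by fun_prop)).mul (((PB.const 2).mul hB1).add (PB.const 2))).add (PB.const 1)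
  refine PTime.iterate (n := fun p : Co × ℕ × ℕ × ℕ => p.2.2.2)
    (s := fun p : Co × ℕ × ℕ × ℕ =>
      (List.range p.2.2.1).map (tt (qO (adjM p.1.1.1 p.1.1.2) p.1.2) p.2.1))
    (f := fun (p : Co × ℕ × ℕ × ℕ) (u : List ℕ) => (List.range p.2.2.1).map
      (nxF (qO (adjM p.1.1.1 p.1.1.2) p.1.2) (eO (adjM p.1.1.1 p.1.1.2) p.1.2) u))
    (by fun_prop) ?_ ?_ hB ?_
  · exact ptime_ttL.comp (g := fun p : Co × ℕ × ℕ × ℕ => (p.1, (p.2.1, p.2.2.1))) (by fun_prop)
  · exact ptime_nxL.comp (g := fun p : (Co × ℕ × ℕ × ℕ) × List ℕ => (p.1.1, (p.1.2.2.1, p.2)))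
      (by fun_prop)
  · intro p i hi
    have h1 := rowF_mem (c := 1 + p.1.2.length) (by omega)
      (qO_le (adjM p.1.1.1 p.1.1.2) p.1.2) (eO_le (adjM p.1.1.1 p.1.1.2) p.1.2)
      p.2.1 p.2.2.1 i
    refine sz_list_le (le_of_eq h1.1) fun x hx => (h1.2 x hx).trans ?_
    have h2 : 2 * i * (1 + p.1.2.length) ≤ 2 * p.2.2.2 * (1 + p.1.2.length) :=
      Nat.mul_le_mul_right _ (Nat.mul_le_mul_left _ hi)
    omega

/-- The test with rows. -/
theorem sucO_eq (adj : ℕ → ℕ → Bool) (o : List ℕ) (s : ℕ) :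
    sucO adj o s = (List.range o.length).any fun t => (List.range (2 * s)).all fun j =>
      decide ((rowF (qO adj o) (eO adj o) t (5 * s + 1) (s - 1)).getD j 0 <
        (rowF (qO adj o) (eO adj o) t (5 * s + 1) 0).getD (j + 1) 0) := by
  unfold sucO
  congr 1
  funext t
  rw [Bool.eq_iff_iff, List.all_eq_true, List.all_eq_true]
  refine forall_congr' fun j => forall_congr' fun hj => ?_
  rw [List.mem_range] at hj
  rw [rowF_eq (qO adj o) (eO adj o) t (5 * s + 1) (s - 1) j (by omega),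
    rowF_eq (qO adj o) (eO adj o) t (5 * s + 1) 0 (j + 1) (by omega)]
  rfl

theorem ptime_sucO {α : Type} [Enc α] {n : α → ℕ} {w : α → List Bool} {o : α → List ℕ}
    {s : α → ℕ} (hn : PTime n) (hw : PTime w) (ho : PTime o) (hs : PTime s) :
    PTime fun a => sucO (adjM (n a) (w a)) (o a) (s a) := by
  have key : PTime fun p : Co × ℕ => sucO (adjM p.1.1.1 p.1.1.2) p.1.2 p.2 := by
    have h : PTime fun p : Co × ℕ => (List.range p.1.2.length).any fun t =>
        (List.range (2 * p.2)).all fun j =>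
        decide ((rowF (qO (adjM p.1.1.1 p.1.1.2) p.1.2) (eO (adjM p.1.1.1 p.1.1.2) p.1.2) t
          (5 * p.2 + 1) (p.2 - 1)).getD j 0 <
        (rowF (qO (adjM p.1.1.1 p.1.1.2) p.1.2) (eO (adjM p.1.1.1 p.1.1.2) p.1.2) t
          (5 * p.2 + 1) 0).getD (j + 1) 0) := by
      refine PTime.any (l := fun p : Co × ℕ => List.range p.1.2.length)
        (f := fun (p : Co × ℕ) (t : ℕ) => (List.range (2 * p.2)).all fun j =>
        decide ((rowF (qO (adjM p.1.1.1 p.1.1.2) p.1.2) (eO (adjM p.1.1.1 p.1.1.2) p.1.2) t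
          (5 * p.2 + 1) (p.2 - 1)).getD j 0 <
        (rowF (qO (adjM p.1.1.1 p.1.1.2) p.1.2) (eO (adjM p.1.1.1 p.1.1.2) p.1.2) t
          (5 * p.2 + 1) 0).getD (j + 1) 0)) (by fun_prop) ?_
      refine PTime.all (l := fun p : (Co × ℕ) × ℕ => List.range (2 * p.1.2))
        (f := fun (p : (Co × ℕ) × ℕ) (j : ℕ) =>
        decide ((rowF (qO (adjM p.1.1.1.1 p.1.1.1.2) p.1.1.2)
          (eO (adjM p.1.1.1.1 p.1.1.1.2) p.1.1.2) p.2
          (5 * p.1.2 + 1) (p.1.2 - 1)).getD j 0 <
        (rowF (qO (adjM p.1.1.1.1 p.1.1.1.2) p.1.1.2)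
          (eO (adjM p.1.1.1.1 p.1.1.1.2) p.1.1.2) p.2
          (5 * p.1.2 + 1) 0).getD (j + 1) 0)) (by fun_prop) ?_
      have h1 : PTime fun q : ((Co × ℕ) × ℕ) × ℕ =>
          rowF (qO (adjM q.1.1.1.1.1 q.1.1.1.1.2) q.1.1.1.2)
          (eO (adjM q.1.1.1.1.1 q.1.1.1.1.2) q.1.1.1.2) q.1.2
          (5 * q.1.1.2 + 1) (q.1.1.2 - 1) :=
        ptime_rowF.comp (g := fun q : ((Co × ℕ) × ℕ) × ℕ =>
          (q.1.1.1, (q.1.2, (5 * q.1.1.2 + 1, q.1.1.2 - 1)))) (by fun_prop)
      have h2 : PTime fun q : ((Co × ℕ) × ℕ) × ℕ =>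
          rowF (qO (adjM q.1.1.1.1.1 q.1.1.1.1.2) q.1.1.1.2)
          (eO (adjM q.1.1.1.1.1 q.1.1.1.1.2) q.1.1.1.2) q.1.2
          (5 * q.1.1.2 + 1) 0 :=
        ptime_rowF.comp (g := fun q : ((Co × ℕ) × ℕ) × ℕ =>
          (q.1.1.1, (q.1.2, (5 * q.1.1.2 + 1, 0)))) (by fun_prop)
      exact PTime.lt (PTime.getD h1 (by fun_prop) (by fun_prop))
        (PTime.getD h2 (by fun_prop) (by fun_prop))
    exact h.of_eq fun p => (sucO_eq _ _ _).symm
  exact key.comp (g := fun a => (((n a, w a), o a), s a)) (by fun_prop)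

end P52

open P52 in
theorem stPTSt_52 : StPTSt := ptime_sucO (by fun_prop) (by fun_prop) (by fun_prop) (by fun_prop)

end Pool.Agent.Lib.MP_0b43f8_lc.Grid
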