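import Pool.Agent.Lib.MP_0b43f8_lc.Grid.Stmts

set_option autoImplicit false

/-!
# POS: the functions `q` and `el` of a correct order
-/

namespace Pool.Agent.Lib.MP_0b43f8_lc.Grid

theorem lf16 (n : ℕ) (p : ℕ → Bool) :
    ((List.range n).filter p).length = ((Finset.range n).filter fun w => p w = true).card := by
  rw [← List.toFinset_range, ← List.toFinset_filter, List.toFinset_card_of_nodup]
  exact List.Nodup.filter _ List.nodup_range

theorem chk16 {adj : ℕ → ℕ → Bool} {o : List ℕ} (h : chk adj o = true) (i j k : ℕ) (hij : i < j)
    (hjk : j < k) (hk : k < o.length) (ha : adj (o.getD i 0) (o.getD k 0) = true) :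
    adj (o.getD i 0) (o.getD j 0) = true ∧ adj (o.getD j 0) (o.getD k 0) = true := by
  unfold chk at h
  rw [List.all_eq_true] at h
  have h1 := h i (List.mem_range.2 (by omega))
  rw [List.all_eq_true] at h1
  have h2 := h1 j (List.mem_range.2 (by omega))
  rw [List.all_eq_true] at h2
  have h3 := h2 k (List.mem_range.2 hk)
  rw [Bool.or_eq_true, Bool.not_eq_true', Bool.and_eq_false_iff, Bool.and_eq_false_iff,
    Bool.and_eq_true] at h3
  rcases h3 with (h3 | h3 | h3) | h3
  · simp [hij] at h3
  · simp [hjk] at h3
  · rw [ha] at h3; exact absurd h3 (by simp)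
  · exact h3

theorem qO16 {adj : ℕ → ℕ → Bool} {o : List ℕ} (h : chk adj o = true) (i w : ℕ) (hiw : i < w)
    (hw : w < o.length) : w < qO adj o i ↔ adj (o.getD i 0) (o.getD w 0) = true := by
  unfold qO
  rw [lf16]
  set S := (Finset.range o.length).filter fun w => (decide (i < w) &&
    adj (o.getD i 0) (o.getD w 0)) = true with hS
  have hm : ∀ x, x ∈ S ↔ x < o.length ∧ i < x ∧ adj (o.getD i 0) (o.getD x 0) = true := by
    intro x
    rw [hS, Finset.mem_filter, Finset.mem_range, Bool.and_eq_true, decide_eq_true_iff]
  constructor
  · intro h1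
    by_contra h2
    have h3 : S ⊆ Finset.Ioo i w := by
      intro x hx
      rw [hm] at hx
      rw [Finset.mem_Ioo]
      refine ⟨hx.2.1, ?_⟩
      by_contra h4
      rcases Nat.lt_or_ge w x with h5 | h5
      · exact h2 (chk16 h i w x hiw h5 hx.1 hx.2.2).1
      · have h6 : x = w := by omega
        rw [h6] at hx
        exact h2 hx.2.2
    have h4 := Finset.card_le_card h3
    rw [Nat.card_Ioo] at h4
    omega
  · intro h1
    have h3 : Finset.Ioc i w ⊆ S := by
      intro x hx
      rw [Finset.mem_Ioc] at hx
      rw [hm]
      refine ⟨by omega, hx.1, ?_⟩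
      rcases Nat.lt_or_ge x w with h5 | h5
      · exact (chk16 h i x w hx.1 h5 hw h1).1
      · have h6 : x = w := by omega
        rw [h6]
        exact h1
    have h4 := Finset.card_le_card h3
    rw [Nat.card_Ioc] at h4
    omega

/-- POS -/
theorem stPos_16 : StPos := by
  intro adj G o hG h
  have hmax : ∀ i, qO adj o i ≤ max o.length (i + 1) := by
    intro i
    unfold qO
    rw [lf16]
    have h3 : ((Finset.range o.length).filter fun w => (decide (i < w) &&
        adj (o.getD i 0) (o.getD w 0)) = true) ⊆ Finset.Ioo i o.length := by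
      intro x hx
      rw [Finset.mem_filter, Finset.mem_range, Bool.and_eq_true, decide_eq_true_iff] at hx
      rw [Finset.mem_Ioo]
      exact ⟨hx.2.1, hx.1⟩
    have h4 := Finset.card_le_card h3
    rw [Nat.card_Ioo] at h4
    omega
  have hgt : ∀ i, i < qO adj o i := by
    intro i
    unfold qO
    omega
  have hmono : ∀ i j, i ≤ j → qO adj o i ≤ qO adj o j := by
    intro i j hij
    rcases Nat.lt_or_ge i j with h1 | h1
    · by_contra h2
      have h3 := hgt j
      have h4 := hmax i
      have h5 : qO adj o i - 1 < o.length := by omega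
      have h6 := (qO16 h i (qO adj o i - 1) (by omega) h5).1 (by omega)
      have h7 := (chk16 h i j (qO adj o i - 1) h1 (by omega) h5 h6).2
      have h8 := (qO16 h j (qO adj o i - 1) (by omega) h5).2 h7
      omega
    · have h2 : i = j := by omega
      rw [h2]
  refine ⟨⟨hmono, hgt, ?_⟩, ?_, hmax⟩
  · intro a v
    unfold eO
    rw [lf16]
    constructor
    · intro h1
      by_contra h2
      have h3 : Finset.range (v + 1) ⊆
          (Finset.range (a + 1)).filter fun w => decide (qO adj o w ≤ a) = true := by
        intro x hx
        rw [Finset.mem_range] at hx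
        rw [Finset.mem_filter, Finset.mem_range, decide_eq_true_iff]
        have h4 := hmono x v (by omega)
        have h5 := hgt x
        exact ⟨by omega, by omega⟩
      have h4 := Finset.card_le_card h3
      rw [Finset.card_range] at h4
      omega
    · intro h1
      have h3 : ((Finset.range (a + 1)).filter fun w => decide (qO adj o w ≤ a) = true) ⊆
          Finset.range v := by
        intro x hx
        rw [Finset.mem_filter, Finset.mem_range, decide_eq_true_iff] at hx
        rw [Finset.mem_range]
        by_contra h4
        have h5 := hmono v x (by omega)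
        omega
      have h4 := Finset.card_le_card h3
      rw [Finset.card_range] at h4
      exact h4
  · intro i j hij hj
    rw [hG, qO16 h i j hij hj]

end Pool.Agent.Lib.MP_0b43f8_lc.Grid
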