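import Pool.Agent.Lib.MP_0b43f8_lc.Core
import Pool.Agent.Lib.PTime.Fin
import Pool.Agent.Lib.PTime.TM

set_option autoImplicit false

/-!
# Clique-width of unit interval graphs up to a constant factor: definitions and the statements of
the modules

The vertices of one component are the positions `0, 1, 2, …`; `q v` is the first position right
of `v` that is not adjacent to `v`; positions behind the last vertex are isolated
(`q v = v + 1`). `el a` is the first `w` with `a < q w`.
-/

namespace Pool.Agent.Lib.MP_0b43f8_lc.Grid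

open Pool.Agent.Lib.MP_0b43f8_lc Pool.Agent.Lib.PT

/-- The functions `q` and `el`. -/
structure QE (q el : ℕ → ℕ) : Prop where
  mono : ∀ i j, i ≤ j → q i ≤ q j
  gt : ∀ v, v < q v
  gal : ∀ a v, el a ≤ v ↔ a < q v

/-- The graph `G` on the positions is given by `q`. -/
def IsG (q : ℕ → ℕ) (G : SimpleGraph ℕ) : Prop := ∀ i j, i < j → (G.Adj i j ↔ j < q i)

/-! ### Strands -/

/-- The left ends of the columns: `t, q t, q (q t), …` -/
def tt (q : ℕ → ℕ) (t : ℕ) : ℕ → ℕ
  | 0 => t
  | j + 1 => q (tt q t j)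

/-- The next strand below the strand `u`. -/
def nx (q el u : ℕ → ℕ) : ℕ → ℕ
  | 0 => el (u 1)
  | j + 1 => max (el (u (j + 2))) (q (nx q el u j))

/-- The strands: strand `0` consists of the left ends of the columns. -/
def st (q el : ℕ → ℕ) (t : ℕ) : ℕ → ℕ → ℕ
  | 0 => tt q t
  | i + 1 => nx q el (st q el t i)

/-- `s` strands survive on `2 s` columns. -/
def Suc (q el : ℕ → ℕ) (t s : ℕ) : Prop := ∀ j, j < 2 * s → st q el t (s - 1) j < tt q t (j + 1)

/-- STR : the basic facts about strands -/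
def StStr : Prop := ∀ (q el : ℕ → ℕ), QE q el → ∀ t i j,
  q (st q el t i j) ≤ st q el t i (j + 1) ∧ st q el t i j < st q el t (i + 1) j ∧
    st q el t i (j + 1) < q (st q el t (i + 1) j)

/-- EMBP : surviving strands give an induced power of a path, in increasing order. -/
def StEmbP : Prop := ∀ (q el : ℕ → ℕ) (t s : ℕ), QE q el → 1 ≤ s → Suc q el t s →
  ∃ y : ℕ → ℕ, (∀ a b, a < b → b < 2 * s * s → y a < y b ∧ (y b < q (y a) ↔ b < a + s)) ∧
    ∀ b, b < 2 * s * s → y b < tt q t (2 * s)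

/-! ### Cuts -/

/-- `V` contains all `v` such that `A` separates `v` and `v + 1`, and `H` all `q v` such that `A`
separates `v` and `q v`. -/
def Cut (q : ℕ → ℕ) (A V H : Finset ℕ) : Prop :=
  (∀ v, ¬ (v ∈ A ↔ v + 1 ∈ A) → v ∈ V) ∧ ∀ v, ¬ (v ∈ A ↔ q v ∈ A) → q v ∈ H

/-- CLS : the number of classes of a set is at most the number of cut hyperedges plus 2.
(Let `V⁻` be the `v ∈ A` with `v + 1 ∉ A`, `H⁺ = H ∩ A`, `H⁻ = H \ A`. For `u ≤ u'` in `A` with
the same number of elements of `V⁻` in `[0, u)`, of `V⁻` in `[0, q u)`, of `H⁺` in `[0, u]` and of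
`H⁻` in `[0, q u)`, the outside neighbours are the same; and `2 |V⁻| ≤ |V| + 1`.) -/
def StCls : Prop := ∀ (q : ℕ → ℕ) (G : SimpleGraph ℕ) (A V H : Finset ℕ),
  (∀ i j, i ≤ j → q i ≤ q j) → (∀ v, v < q v) → IsG q G → Cut q A V H →
  cls G A ≤ V.card + H.card + 2

/-- CUT : if strand `F` fails in one of the columns `0, …, J`, there is a cheap cut. -/
def StCut : Prop := ∀ (q el : ℕ → ℕ) (t F J : ℕ), QE q el →
  (∃ j, j ≤ J ∧ tt q t (j + 1) ≤ st q el t F j) →
  ∃ X V H : Finset ℕ, Finset.range t ⊆ X ∧ X ⊆ Finset.range (tt q t (J + F + 1)) ∧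
    Cut q X V H ∧ V.card ≤ 2 * J + 3 * F + 5 ∧ H.card ≤ 2 * J + 3 * F + 5

/-- COL : the columns from `p` on. The last clause: `q x` is in the next column or it is the first
element of its column. -/
def StCol : Prop := ∀ (q : ℕ → ℕ) (p m : ℕ), (∀ i j, i ≤ j → q i ≤ q j) → (∀ v, v < q v) →
  ∃ col : ℕ → ℕ, (∀ x y, p ≤ x → x ≤ y → col x ≤ col y) ∧
    (∀ x y, p ≤ x → x ≤ y → y < q x → col y ≤ col x + 1) ∧
    (∀ x, p ≤ x → col (q x) = col x + 1 ∨ ∀ y, p ≤ y → y < q x → col y < col (q x)) ∧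
    ∀ x, p ≤ x → x < tt q p m → col x < m

/-- SWP : the sweep between two cuts `R ⊆ R'`. -/
def StSwp : Prop := ∀ (q : ℕ → ℕ) (G : SimpleGraph ℕ) (p m c : ℕ) (R V H R' V' H' : Finset ℕ),
  (∀ i j, i ≤ j → q i ≤ q j) → (∀ v, v < q v) → IsG q G → Finset.range p ⊆ R → R ⊆ R' →
  R' ⊆ Finset.range (tt q p m) → Cut q R V H → Cut q R' V' H' →
  V.card ≤ c → H.card ≤ c → V'.card ≤ c → H'.card ≤ c →
  LinR G (4 * c + 4 * m + 2) R → LinR G (4 * c + 4 * m + 2) R'

/-- CHN : cheap cuts in all windows give a cheap sweep. -/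
def StChn : Prop := ∀ (q : ℕ → ℕ) (G : SimpleGraph ℕ) (W c n : ℕ),
  (∀ i j, i ≤ j → q i ≤ q j) → (∀ v, v < q v) → IsG q G → 1 ≤ W →
  (∀ t, ∃ X V H : Finset ℕ, Finset.range t ⊆ X ∧ X ⊆ Finset.range (tt q t W) ∧
    Cut q X V H ∧ V.card ≤ c ∧ H.card ≤ c) →
  ∃ R, Finset.range n ⊆ R ∧ LinR G (4 * c + 8 * W + 2) R

/-! ### The lower bound -/

/-- `y` embeds the `(s - 1)`-th power of the path with `N` vertices. -/
def PowP {V : Type} (G : SimpleGraph V) (s N : ℕ) (y : ℕ → V) : Prop :=
  ∀ a b, a < b → b < N → y a ≠ y b ∧ (G.Adj (y a) (y b) ↔ b < a + s)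

/-- FE : a labelled set that contains one window of length `s` and misses another one has at least
`s` labels. -/
def StFE : Prop := ∀ (V : Type) [DecidableEq V] (G : SimpleGraph V) (s N k : ℕ) (y : ℕ → V)
  (X : Finset V) (l : V → ℕ), PowP G s N y → (∀ v ∈ X, l v < k) →
  (∀ u ∈ X, ∀ v ∈ X, l u = l v → ∀ w, w ∉ X → (G.Adj u w ↔ G.Adj v w)) →
  (∃ a, a + s ≤ N ∧ ∀ i, i < s → y (a + i) ∈ X) →
  (∃ b, b + s ≤ N ∧ ∀ i, i < s → y (b + i) ∉ X) → s ≤ k

/-- LOW : the lower bound for the clique-width -/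
def StLow : Prop := ∀ (V : Type) [DecidableEq V] (G : SimpleGraph V) (s k : ℕ) (y : ℕ → V)
  (Z : Finset V) (l : V → ℕ), 2 ≤ s → PowP G s (2 * s * s) y → (∀ b, b < 2 * s * s → y b ∈ Z) →
  Good G k Z l → (∀ u ∈ Z, ∀ v ∈ Z, l u = l v → ∀ w, w ∉ Z → (G.Adj u w ↔ G.Adj v w)) →
  s ≤ k

/-! ### The algorithm -/

section alg

variable (adj : ℕ → ℕ → Bool)

/-- The number of neighbours of `v` in `D`. -/
def cn1 (D : List ℕ) (v : ℕ) : ℕ := (D.filter fun w => adj v w).length

/-- The number of neighbours of `v` outside `D`. -/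
def cn2 (n : ℕ) (D : List ℕ) (v : ℕ) : ℕ :=
  ((List.range n).filter fun w => adj v w && !(decide (w ∈ D))).length

/-- The vertices outside `D` with a neighbour in `D`. -/
def cand (n : ℕ) (D : List ℕ) : List ℕ :=
  (List.range n).filter fun v => !(decide (v ∈ D)) && D.any fun w => adj v w

/-- The score of a vertex: many neighbours in `D`, then few neighbours outside. -/
def score (n : ℕ) (D : List ℕ) (v : ℕ) : ℕ := cn1 adj D v * (n + 1) + (n - cn2 adj n D v)

/-- The vertices with the best score. -/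
def best (n : ℕ) (D : List ℕ) : List ℕ :=
  (cand adj n D).filter fun v => (cand adj n D).all fun u =>
    decide (score adj n D u ≤ score adj n D v)

/-- Append a vertex with the best score. -/
def stepO (n : ℕ) (D : List ℕ) : List ℕ := D ++ (best adj n D).take 1

/-- The order of the component of `a` that starts with `a`. -/
def ordO (n a : ℕ) : List ℕ := (stepO adj n)^[n] [a]

/-- Is `o` an order from left to right? -/
def chk (o : List ℕ) : Bool :=
  (List.range o.length).all fun i => (List.range o.length).all fun j =>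
    (List.range o.length).all fun k => !(decide (i < j) && (decide (j < k) &&
      adj (o.getD i 0) (o.getD k 0))) || (adj (o.getD i 0) (o.getD j 0) &&
        adj (o.getD j 0) (o.getD k 0))

/-- The function `q` of an order. -/
def qO (o : List ℕ) (i : ℕ) : ℕ :=
  i + 1 + ((List.range o.length).filter fun w => decide (i < w) &&
    adj (o.getD i 0) (o.getD w 0)).length

/-- The function `el` of an order. -/
def eO (o : List ℕ) (a : ℕ) : ℕ :=
  ((List.range (a + 1)).filter fun w => decide (qO adj o w ≤ a)).length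

/-- Do `s` strands survive in the order `o` from some start? -/
def sucO (o : List ℕ) (s : ℕ) : Bool :=
  (List.range o.length).any fun t => (List.range (2 * s)).all fun j =>
    decide (st (qO adj o) (eO adj o) t (s - 1) j < tt (qO adj o) t (j + 1))

/-- Is there a start `a` with a correct order in which `s` strands survive? -/
def sucA (n s : ℕ) : Bool :=
  decide (2 ≤ s) && (List.range n).any fun a =>
    chk adj (ordO adj n a) && sucO adj (ordO adj n a) s

/-- The largest `s ≤ n` such that `s` strands survive (`0` if there is none). -/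
def gg (n : ℕ) : ℕ := (List.range (n + 1)).foldl (fun g s => bif sucA adj n s then s else g) 0

/-- The result: `52 s` with `s = max (g + 1) 2`. -/
def outN (n : ℕ) : ℕ := 52 * max (gg adj n + 1) 2

end alg

/-- POS : the functions `q` and `el` of a correct order. -/
def StPos : Prop := ∀ (adj : ℕ → ℕ → Bool) (G : SimpleGraph ℕ) (o : List ℕ),
  (∀ u v, G.Adj u v ↔ adj u v = true) → chk adj o = true →
  QE (qO adj o) (eO adj o) ∧
  (∀ i j, i < j → j < o.length → (G.Adj (o.getD i 0) (o.getD j 0) ↔ j < qO adj o i)) ∧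
  (∀ i, qO adj o i ≤ max o.length (i + 1))

/-- ORDR : the order from the leftmost vertex of a component is correct. -/
def StOrdr : Prop := ∀ (adj : ℕ → ℕ → Bool) (G : SimpleGraph ℕ) (f : ℕ → ℝ) (n a : ℕ),
  (∀ u v, G.Adj u v ↔ adj u v = true) → (∀ u v, G.Adj u v → u < n ∧ v < n) →
  (∀ u, u < n → ∀ v, v < n → (G.Adj u v ↔ u ≠ v ∧ |f u - f v| ≤ 1)) → a < n →
  (∀ v, G.Reachable a v → f a ≤ f v) →
  (∀ v, v ∈ ordO adj n a ↔ G.Reachable a v) ∧ chk adj (ordO adj n a) = true

/-- NDP : the orders have no repetitions and consist of vertices. -/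
def StNdp : Prop := ∀ (adj : ℕ → ℕ → Bool) (n a : ℕ), a < n →
  (ordO adj n a).Nodup ∧ ∀ v ∈ ordO adj n a, v < n

/-- GG : `gg` is the largest `s`. -/
def StGG : Prop := ∀ (adj : ℕ → ℕ → Bool) (n : ℕ), gg adj n ≤ n ∧
  (gg adj n ≠ 0 → sucA adj n (gg adj n) = true) ∧
  ∀ s, gg adj n < s → s ≤ n → sucA adj n s = false

/-- ONEC : the upper bound for one order: `n`, `G`, an order `o` in which `s` strands do not
survive. -/
def StOnec : Prop := ∀ (adj : ℕ → ℕ → Bool) (G : SimpleGraph ℕ) (o : List ℕ) (s : ℕ),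
  (∀ u v, G.Adj u v ↔ adj u v = true) → o.Nodup → o ≠ [] → chk adj o = true → 2 ≤ s →
  sucO adj o s = false → ∃ l, Good G (52 * s) o.toFinset l

/-- LOWO : the lower bound for one order. -/
def StLowo : Prop := ∀ (adj : ℕ → ℕ → Bool) (G : SimpleGraph ℕ) (o : List ℕ) (n s : ℕ),
  (∀ u v, G.Adj u v ↔ adj u v = true) → (∀ v ∈ o, v < n) → o.Nodup →
  chk adj o = true → 2 ≤ s → sucO adj o s = true →
  s ≤ n ∧ ∃ y : ℕ → ℕ, PowP G s (2 * s * s) y ∧ ∀ b, b < 2 * s * s → y b < n

/-- UPA : the upper bound. -/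
def StUpA : Prop := ∀ (n s : ℕ) (G : SimpleGraph (Fin n)), 1 ≤ n → 2 ≤ s → IsUnitInterval G →
  sucA (adjM n (matrix G)) n s = false → CliqueWidthLE G (52 * s)

/-- LOA : the lower bound (for every graph). -/
def StLoA : Prop := ∀ (n s : ℕ) (G : SimpleGraph (Fin n)),
  sucA (adjM n (matrix G)) n s = true → s ≤ n ∧ ∃ y : ℕ → Fin n, PowP G s (2 * s * s) y

/-- CWP : the clique-width of a graph that contains the power of a path. -/
def StCwp : Prop := ∀ (n s k : ℕ) (G : SimpleGraph (Fin n)) (y : ℕ → Fin n), 2 ≤ s →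
  PowP G s (2 * s * s) y → CliqueWidthLE G k → s ≤ k

/-- APX : the algorithm is correct. -/
def StApx : Prop := ∀ (n : ℕ) (G : SimpleGraph (Fin n)), 1 ≤ n → IsUnitInterval G →
  CliqueWidthLE G (outN (adjM n (matrix G)) n) ∧
  ∀ k, CliqueWidthLE G k → outN (adjM n (matrix G)) n ≤ 52 * (k + 1)

/-! ### Polynomial time -/

/-- PTO : the order is computed in polynomial time. -/
def StPTO : Prop := PTime fun p : (ℕ × List Bool) × ℕ => ordO (adjM p.1.1 p.1.2) p.1.1 p.2

/-- PTC : the check is computed in polynomial time. -/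
def StPTCh : Prop := PTime fun p : (ℕ × List Bool) × List ℕ => chk (adjM p.1.1 p.1.2) p.2

/-- PTS : the strands are computed in polynomial time. -/
def StPTSt : Prop := PTime fun p : (ℕ × List Bool) × List ℕ × ℕ =>
  sucO (adjM p.1.1 p.1.2) p.2.1 p.2.2

/-- PTG -/
def StPTG : Prop := PTime fun p : ℕ × List Bool => outN (adjM p.1 p.2) p.1

end Pool.Agent.Lib.MP_0b43f8_lc.Grid
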