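import Pool.Agent.Lib.MP_0b43f8_lc.Grid.Stmts

set_option autoImplicit false

/-!
# STR and EMBP: the basic facts about strands, and the induced power of a path
-/

namespace Pool.Agent.Lib.MP_0b43f8_lc.Grid

/-- STR -/
theorem stStr_16 : StStr := by
  intro q el h t i j
  have h1 : ∀ i j, q (st q el t i j) ≤ st q el t i (j + 1) := by
    intro i j
    cases i with
    | zero => exact le_refl _
    | succ i => exact le_max_right _ _
  have h3 : ∀ i j, el (st q el t i (j + 1)) ≤ st q el t (i + 1) j := by
    intro i j
    cases j with
    | zero => exact le_refl _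
    | succ j => exact le_max_left _ _
  have h4 : st q el t i (j + 1) < q (st q el t (i + 1) j) := (h.gal _ _).1 (h3 i j)
  refine ⟨h1 i j, ?_, h4⟩
  by_contra hc
  have h5 := h.mono _ _ (not_lt.1 hc)
  have h6 := h1 i j
  omega

/-- EMBP -/
theorem stEmbP_16 : StEmbP := by
  intro q el t s h hs hsuc
  have hS := stStr_16 q el h t
  -- monotone in the strand
  have hi : ∀ i i' j, i ≤ i' → st q el t i j ≤ st q el t i' j := by
    intro i i' j hii
    induction hii with
    | refl => exact le_refl _
    | step _ ih => exact le_trans ih (le_of_lt (hS _ j).2.1)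
  have hi' : ∀ i i' j, i < i' → st q el t i j < st q el t i' j := by
    intro i i' j hii
    exact lt_of_lt_of_le (hS i j).2.1 (hi (i + 1) i' j hii)
  have htt : ∀ j j', j ≤ j' → tt q t j ≤ tt q t j' := by
    intro j j' hj
    induction hj with
    | refl => exact le_refl _
    | step _ ih => exact le_trans ih (le_of_lt (h.gt _))
  have hlo : ∀ i j, tt q t j ≤ st q el t i j := fun i j => hi 0 i j (Nat.zero_le _)
  have hhi : ∀ i j, i < s → j < 2 * s → st q el t i j < tt q t (j + 1) := by
    intro i j h1 h2
    exact lt_of_le_of_lt (hi i (s - 1) j (by omega)) (hsuc j h2)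
  have key : ∀ i j i' j', i < s → i' < s → j' < 2 * s → j * s + i < j' * s + i' →
      st q el t i j < st q el t i' j' ∧
        (st q el t i' j' < q (st q el t i j) ↔ j' * s + i' < j * s + i + s) := by
    intro i j i' j' his his' hj' hlt
    have hjj : j ≤ j' := by
      by_contra hc
      have h1 : j' + 1 ≤ j := by omega
      have h2 := Nat.mul_le_mul_right s h1
      rw [Nat.add_mul, Nat.one_mul] at h2
      omega
    rcases Nat.lt_or_ge j j' with hj | hj
    · rcases Nat.lt_or_ge (j + 1) j' with hj2 | hj2
      · -- at least two columns apart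
        have h0 : tt q t (j + 2) ≤ st q el t i' j' := le_trans (htt _ _ hj2) (hlo i' j')
        have h1 : st q el t i j < tt q t (j + 1) := hhi i j his (by omega)
        have h2 : q (st q el t i j) ≤ tt q t (j + 2) := h.mono _ _ (le_of_lt h1)
        have h3 := h.gt (st q el t i j)
        refine ⟨by omega, ?_⟩
        have h4 : (j + 2) * s ≤ j' * s := Nat.mul_le_mul_right s hj2
        rw [Nat.add_mul] at h4
        constructor <;> intro h5 <;> omega
      · have hj3 : j' = j + 1 := by omega
        subst hj3
        have h1 : st q el t i j < tt q t (j + 1) := hhi i j his (by omega)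
        have h2 := hlo i' (j + 1)
        refine ⟨by omega, ?_⟩
        have h4 : (j + 1) * s = j * s + s := by ring
        rcases Nat.lt_or_ge i' i with hii | hii
        · have h5 := hi i' (i - 1) (j + 1) (by omega)
          have h6 := (hS (i - 1) j).2.2
          rw [show i - 1 + 1 = i from by omega] at h6
          constructor
          · intro _; omega
          · intro _; omega
        · have h5 := hi i i' (j + 1) hii
          have h6 := (hS i j).1
          constructor <;> intro h7 <;> omega
    · have hj3 : j' = j := by omega
      subst hj3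
      have hii : i < i' := by omega
      refine ⟨hi' i i' _ hii, ?_⟩
      have h1 := hhi i' _ his' hj'
      have h2 : tt q t (j' + 1) ≤ q (st q el t i j') := h.mono _ _ (hlo i j')
      constructor
      · intro _; omega
      · intro _; omega
  have hdm : ∀ a, a / s * s + a % s = a := fun a => Nat.div_add_mod' a s
  refine ⟨fun b => st q el t (b % s) (b / s), ?_, ?_⟩
  · intro a b hab hb
    have h1 := key (a % s) (a / s) (b % s) (b / s) (Nat.mod_lt _ hs) (Nat.mod_lt _ hs)
      (Nat.div_lt_of_lt_mul (by rw [Nat.mul_comm s (2 * s)]; exact hb))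
      (by rw [hdm, hdm]; exact hab)
    rw [hdm, hdm] at h1
    exact h1
  · intro b hb
    have h1 : b / s < 2 * s := Nat.div_lt_of_lt_mul (by rw [Nat.mul_comm s (2 * s)]; exact hb)
    exact lt_of_lt_of_le (hhi (b % s) (b / s) (Nat.mod_lt _ hs) h1) (htt _ _ h1)

end Pool.Agent.Lib.MP_0b43f8_lc.Grid
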