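import Pool.Agent.Lib.MP_0b43f8_lc.Grid.Col66
import Pool.Agent.Lib.MP_0b43f8_lc.Up1

set_option autoImplicit false

/-! SWP: the sweep between two cuts. -/

namespace Pool.Agent.Lib.MP_0b43f8_lc.Grid

open Pool.Agent.Lib.MP_0b43f8_lc.Up1M

/-- SWP -/
theorem stSwp_66 (hC : StCls) (hcol : StCol) : StSwp := by
  classical
  intro q G p m c R V H R' V' H' hmono hgt hG hpR hRR hR' hcut hcut' hV hH hV' hH' hL
  obtain ⟨col, c1, c2, c3, c4⟩ := hcol q p m hmono hgt
  set q' := tt q p m with hq'
  have hpq : p ≤ q' := (Nat.le_add_right p m).trans (Col66.le_tt hgt m)
  set r : ℕ → ℕ := fun v => q v - 1 with hr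
  have hrq : ∀ v, r v + 1 = q v := by
    intro v
    have := hgt v
    simp only [hr]
    omega
  have hrmono : ∀ i j, i ≤ j → r i ≤ r j := by
    intro i j hij
    have := hmono i j hij
    simp only [hr]
    omega
  have c3' : ∀ x y, p ≤ x → x ≤ y → y ≤ r x → col y ≤ col x + 1 := by
    intro x y hx hxy hy
    have := hrq x
    exact c2 x y hx hxy (by omega)
  set XA : Finset ℕ → Finset ℕ := fun A => R ∪ (R' ∩ A) with hXA
  have hmem : ∀ A x, x ∈ XA A ↔ x ∈ R ∨ (x ∈ R' ∧ x ∈ A) := by
    intro A x
    simp only [hXA, Finset.mem_union, Finset.mem_inter]
  have hpR' : ∀ x, x ∉ R → p ≤ x := by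
    intro x hx
    by_contra hlt
    exact hx (hpR (Finset.mem_range.2 (by omega)))
  have hlt : ∀ x, x ∈ R' → x < q' := fun x hx => Finset.mem_range.1 (hR' hx)
  -- the number of classes
  have hcls : ∀ A, Valid r col p q' A → cls G (XA A) ≤ 4 * c + 4 * m + 2 := by
    intro A hA
    set S1 := (Finset.range q').filter fun w => p ≤ w ∧ ∀ y, p ≤ y → y < w → col y < col w with hS1
    set S2 := (Finset.range q').filter fun w => p ≤ w ∧ w ∉ A ∧
      ∀ y, p ≤ y → y < w → col y = col w → y ∈ A with hS2
    have hcard1 : S1.card ≤ m := by
      have : (S1.image col).card = S1.card := by
        apply Finset.card_image_of_injOn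
        intro w hw w' hw' he
        simp only [hS1, Finset.coe_filter, Set.mem_ofPred_eq] at hw hw'
        rcases lt_trichotomy w w' with h | h | h
        · have := hw'.2.2 w hw.2.1 h
          omega
        · exact h
        · have := hw.2.2 w' hw'.2.1 h
          omega
      rw [← this]
      refine (Finset.card_le_card (t := Finset.range m) ?_).trans (by rw [Finset.card_range])
      intro j hj
      obtain ⟨w, hw, rfl⟩ := Finset.mem_image.1 hj
      rw [hS1, Finset.mem_filter, Finset.mem_range] at hw
      exact Finset.mem_range.2 (c4 w hw.2.1 hw.1)
    have hcard2 : S2.card ≤ m := by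
      have : (S2.image col).card = S2.card := by
        apply Finset.card_image_of_injOn
        intro w hw w' hw' he
        simp only [hS2, Finset.coe_filter, Set.mem_ofPred_eq] at hw hw'
        rcases lt_trichotomy w w' with h | h | h
        · exact absurd (hw'.2.2.2 w hw.2.1 h he) hw.2.2.1
        · exact h
        · exact absurd (hw.2.2.2 w' hw'.2.1 h he.symm) hw'.2.2.1
      rw [← this]
      refine (Finset.card_le_card (t := Finset.range m) ?_).trans (by rw [Finset.card_range])
      intro j hj
      obtain ⟨w, hw, rfl⟩ := Finset.mem_image.1 hj
      rw [hS2, Finset.mem_filter, Finset.mem_range] at hw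
      exact Finset.mem_range.2 (c4 w hw.2.1 hw.1)
    have hcutA : Cut q (XA A) (V ∪ V' ∪ (S1 ∪ S2).image (fun w => w - 1))
        (H ∪ H' ∪ (S1 ∪ S2)) := by
      constructor
      · intro v hv
        rw [hmem, hmem] at hv
        simp only [Finset.mem_union, Finset.mem_image]
        by_cases h1 : v ∈ R ↔ v + 1 ∈ R
        · by_cases h2 : v ∈ R
          · exact absurd ⟨fun _ => Or.inl (h1.1 h2), fun _ => Or.inl h2⟩ hv
          · have h3 : v + 1 ∉ R := fun h => h2 (h1.2 h)
            have hpv := hpR' v h2
            by_cases h4 : v ∈ R' ↔ v + 1 ∈ R'
            · by_cases h5 : v ∈ R'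
              · have h6 := h4.1 h5
                have hv' : ¬ (v ∈ A ↔ v + 1 ∈ A) := by
                  intro h
                  apply hv
                  simp only [h2, h3, h5, h6, false_or, true_and]
                  exact h
                right
                refine ⟨v + 1, ?_, rfl⟩
                rcases (c1 v (v + 1) hpv (Nat.le_succ v)).eq_or_lt with h7 | h7
                · -- same column
                  right
                  have h8 : v ∈ A := by
                    by_contra h9
                    have h10 : v + 1 ∈ A := by
                      by_contra h11
                      exact hv' ⟨fun h => absurd h h9, fun h => absurd h h11⟩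
                    exact h9 (hA.v1 _ h10 v hpv (Nat.lt_succ_self v) h7)
                  have h9 : v + 1 ∉ A := fun h => hv' ⟨fun _ => h, fun _ => h8⟩
                  rw [hS2, Finset.mem_filter, Finset.mem_range]
                  refine ⟨hlt _ h6, by omega, h9, ?_⟩
                  intro y hy hyv hyc
                  rcases Nat.lt_or_ge y v with h10 | h10
                  · exact hA.v1 v h8 y hy h10 (by omega)
                  · have : y = v := by omega
                    rw [this]
                    exact h8
                · left
                  rw [hS1, Finset.mem_filter, Finset.mem_range]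
                  refine ⟨hlt _ h6, by omega, ?_⟩
                  intro y hy hyv
                  have := c1 y v hy (by omega)
                  omega
              · have h6 : v + 1 ∉ R' := fun h => h5 (h4.2 h)
                exfalso
                apply hv
                simp only [h2, h3, h5, h6, false_or, false_and]
            · exact Or.inl (Or.inr (hcut'.1 v h4))
        · exact Or.inl (Or.inl (hcut.1 v h1))
      · intro v hv
        rw [hmem, hmem] at hv
        simp only [Finset.mem_union]
        by_cases h1 : v ∈ R ↔ q v ∈ R
        · by_cases h2 : v ∈ R
          · exact absurd ⟨fun _ => Or.inl (h1.1 h2), fun _ => Or.inl h2⟩ hv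
          · have h3 : q v ∉ R := fun h => h2 (h1.2 h)
            have hpv := hpR' v h2
            by_cases h4 : v ∈ R' ↔ q v ∈ R'
            · by_cases h5 : v ∈ R'
              · have h6 := h4.1 h5
                have hv' : ¬ (v ∈ A ↔ q v ∈ A) := by
                  intro h
                  apply hv
                  simp only [h2, h3, h5, h6, false_or, true_and]
                  exact h
                right
                have hgv := hgt v
                have hrv := hrq v
                rcases c3 v hpv with h7 | h7
                · right
                  have h8 : v ∈ A := by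
                    by_contra h9
                    have h10 : q v ∈ A := by
                      by_contra h11
                      exact hv' ⟨fun h => absurd h h9, fun h => absurd h h11⟩
                    have := hA.v3 _ h10 v h9 hpv hgv h7
                    omega
                  have h9 : q v ∉ A := fun h => hv' ⟨fun _ => h, fun _ => h8⟩
                  rw [hS2, Finset.mem_filter, Finset.mem_range]
                  refine ⟨hlt _ h6, by omega, h9, ?_⟩
                  intro y hy hyv hyc
                  by_contra hyA
                  have h10 : v < y := by
                    by_contra hle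
                    have := c1 y v hy (by omega)
                    omega
                  have := hA.v2 v h8 hpv y hyA h10 (hyv.trans (hlt _ h6)) (by omega)
                  omega
                · left
                  rw [hS1, Finset.mem_filter, Finset.mem_range]
                  exact ⟨hlt _ h6, by omega, h7⟩
              · have h6 : q v ∉ R' := fun h => h5 (h4.2 h)
                exfalso
                apply hv
                simp only [h2, h3, h5, h6, false_or, false_and]
            · exact Or.inl (Or.inr (hcut'.2 v h4))
        · exact Or.inl (Or.inl (hcut.2 v h1))
    have h1 := hC q G (XA A) _ _ hmono hgt hG hcutA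
    have k1 := Finset.card_union_le (V ∪ V') ((S1 ∪ S2).image (fun w => w - 1))
    have k2 := Finset.card_union_le V V'
    have k3 : ((S1 ∪ S2).image (fun w => w - 1)).card ≤ (S1 ∪ S2).card := Finset.card_image_le
    have k4 := Finset.card_union_le S1 S2
    have k5 := Finset.card_union_le (H ∪ H') (S1 ∪ S2)
    have k6 := Finset.card_union_le H H'
    omega
  -- the sweep
  have key : ∀ (k : ℕ) (A : Finset ℕ), (Finset.range q' \ A).card = k → Valid r col p q' A →
      LinR G (4 * c + 4 * m + 2) (XA A) → LinR G (4 * c + 4 * m + 2) R' := by
    intro k
    induction k with
    | zero =>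
      intro A hm hA hL
      have h1 : Finset.range q' ⊆ A :=
        Finset.sdiff_eq_empty_iff_subset.mp (Finset.card_eq_zero.mp hm)
      have h2 : XA A = R' := by
        ext x
        rw [hmem]
        constructor
        · rintro (h | h)
          · exact hRR h
          · exact h.1
        · intro h
          exact Or.inr ⟨h, h1 (Finset.mem_range.2 (hlt x h))⟩
      rwa [h2] at hL
    | succ k ih =>
      intro A hm hA hL
      have h1 : (Finset.range q' \ A).Nonempty := Finset.card_pos.mp (by omega)
      obtain ⟨y, hy⟩ := h1
      rw [Finset.mem_sdiff, Finset.mem_range] at hy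
      obtain ⟨v, v1, v2, v3⟩ := step hrmono c1 c3' hA ⟨y, hy⟩
      have h2 : Finset.range q' \ insert v A = (Finset.range q' \ A).erase v := by
        ext x
        simp only [Finset.mem_sdiff, Finset.mem_insert, Finset.mem_erase]
        tauto
      refine ih (insert v A) ?_ v3 ?_
      · rw [h2, Finset.card_erase_of_mem
          (Finset.mem_sdiff.mpr ⟨Finset.mem_range.mpr v1, v2⟩), hm]
        rfl
      · by_cases h3 : v ∈ R' ∧ v ∉ R
        · have h4 : XA (insert v A) = insert v (XA A) := by
            ext x
            rw [Finset.mem_insert, hmem, hmem, Finset.mem_insert]
            constructor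
            · rintro (h | ⟨h, rfl | h'⟩)
              · exact Or.inr (Or.inl h)
              · exact Or.inl rfl
              · exact Or.inr (Or.inr ⟨h, h'⟩)
            · rintro (rfl | h | h)
              · exact Or.inr ⟨h3.1, Or.inl rfl⟩
              · exact Or.inl h
              · exact Or.inr ⟨h.1, Or.inr h.2⟩
          have h5 := hcls _ v3
          rw [h4] at h5 ⊢
          refine LinR.snoc _ v ?_ hL h5
          rw [hmem]
          rintro (h | h)
          · exact h3.2 h
          · exact v2 h.2
        · have h4 : XA (insert v A) = XA A := by
            ext x
            rw [hmem, hmem, Finset.mem_insert]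
            constructor
            · rintro (h | ⟨h, rfl | h'⟩)
              · exact Or.inl h
              · left
                by_contra h6
                exact h3 ⟨h, h6⟩
              · exact Or.inr ⟨h, h'⟩
            · rintro (h | h)
              · exact Or.inl h
              · exact Or.inr ⟨h.1, Or.inr h.2⟩
          rw [h4]
          exact hL
  refine key _ (Finset.range p) rfl ⟨?_, ?_, ?_, ?_, ?_⟩ ?_
  · intro x hx
    have := Finset.mem_range.mp hx
    omega
  · intro x hx
    exact Finset.mem_range.mpr hx
  · intro x hx y hy hyx _
    have := Finset.mem_range.mp hx
    omega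
  · intro x hx hpx
    have := Finset.mem_range.mp hx
    omega
  · intro x hx y _ hpy hyx _
    have := Finset.mem_range.mp hx
    omega
  · have h2 : XA (Finset.range p) = R := by
      ext x
      rw [hmem]
      constructor
      · rintro (h | h)
        · exact h
        · exact hpR h.2
      · exact Or.inl
    rw [h2]
    exact hL

end Pool.Agent.Lib.MP_0b43f8_lc.Grid
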