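import Pool.Agent.Lib.MP_0b43f8_lc.Grid.Stmts
import Pool.Agent.Lib.MP_0b43f8_lc.Solve
import Pool.Agent.Lib.MP_0b43f8_lc.Cmp

set_option autoImplicit false

/-! UPA: the upper bound for the whole graph. -/

namespace Pool.Agent.Lib.MP_0b43f8_lc.Grid

open Pool.Agent.Lib.MP_0b43f8_lc

theorem stUpA_1 (hNF1 : StNF1) (hNF2 : StNF2) (hEmb : StEmb) (hCompU : StCompU)
    (hOnec : StOnec) (hOrdr : StOrdr) (hNdp : StNdp) : StUpA := by
  classical
  intro n s G hn hs hG hsuc
  rw [cwLE_iff hNF1 hNF2 hEmb]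
  obtain ⟨f, hf⟩ := hG
  set adj := adjM n (matrix G) with hadjdef
  have hadj : ∀ u v, (natG G).Adj u v ↔ adj u v = true := adjM_iff G
  have hlt : ∀ u v, (natG G).Adj u v → u < n ∧ v < n := fun u v h => by
    obtain ⟨hu, hv, _⟩ := (natG_adj G u v).1 h
    exact ⟨hu, hv⟩
  let f' : ℕ → ℝ := fun x => if h : x < n then f ⟨x, h⟩ else 0
  have hf' : ∀ u, u < n → ∀ w, w < n → ((natG G).Adj u w ↔ u ≠ w ∧ |f' u - f' w| ≤ 1) := by
    intro u h1 w h2
    have e1 : f' u = f ⟨u, h1⟩ := dif_pos h1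
    have e2 : f' w = f ⟨w, h2⟩ := dif_pos h2
    rw [natG_adj, e1, e2, ← inter_nonempty_iff]
    constructor
    · rintro ⟨_, _, h⟩
      have h3 := (hf _ _).1 h
      exact ⟨fun e => h3.1 (Fin.ext e), h3.2⟩
    · rintro ⟨h3, h4⟩
      exact ⟨h1, h2, (hf _ _).2 ⟨fun e => h3 (Fin.ext_iff.1 e), h4⟩⟩
  have hreach : ∀ v w, v < n → (natG G).Reachable v w → w < n := by
    rintro v w hv ⟨p⟩
    exact CmpAux.reach_lt hlt hv p
  -- the leftmost vertex of a component
  have hch : ∀ c : (natG G).ConnectedComponent, ∃ a, (∃ v, v < n ∧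
      (natG G).connectedComponentMk v = c) → a < n ∧ (natG G).connectedComponentMk a = c ∧
      ∀ w, (natG G).connectedComponentMk w = c → f' a ≤ f' w := by
    intro c
    by_cases hc : ∃ v, v < n ∧ (natG G).connectedComponentMk v = c
    · obtain ⟨v, hv, hvc⟩ := hc
      have hne : ((Finset.range n).filter fun w =>
          (natG G).connectedComponentMk w = c).Nonempty :=
        ⟨v, Finset.mem_filter.2 ⟨Finset.mem_range.2 hv, hvc⟩⟩
      obtain ⟨a, ha, hmin⟩ := Finset.exists_min_image _ f' hne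
      rw [Finset.mem_filter, Finset.mem_range] at ha
      refine ⟨a, fun _ => ⟨ha.1, ha.2, fun w hw => hmin w ?_⟩⟩
      rw [Finset.mem_filter, Finset.mem_range]
      refine ⟨hreach v w hv ?_, hw⟩
      exact SimpleGraph.ConnectedComponent.exact (hvc.trans hw.symm)
    · exact ⟨0, fun h => absurd h hc⟩
  choose ch hch using hch
  let ρ : ℕ → ℕ := fun v => ch ((natG G).connectedComponentMk v)
  have hρ : ∀ v, v < n → ρ v < n ∧ (natG G).Reachable (ρ v) v ∧
      ∀ w, (natG G).Reachable (ρ v) w → f' (ρ v) ≤ f' w := by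
    intro v hv
    obtain ⟨h1, h2, h3⟩ := hch ((natG G).connectedComponentMk v) ⟨v, hv, rfl⟩
    refine ⟨h1, SimpleGraph.ConnectedComponent.exact h2, fun w hw => h3 w ?_⟩
    have h4 : (natG G).connectedComponentMk (ρ v) = (natG G).connectedComponentMk w :=
      SimpleGraph.ConnectedComponent.sound hw
    rw [← h4]
    exact h2
  have hρ2 : ∀ v w, (natG G).Reachable v w → ρ v = ρ w := by
    intro v w h
    change ch _ = ch _
    rw [SimpleGraph.ConnectedComponent.sound h]
  have hall : ∀ v, v < n → (∀ w, w ∈ ordO adj n (ρ v) ↔ (natG G).Reachable (ρ v) w) ∧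
      chk adj (ordO adj n (ρ v)) = true := by
    intro v hv
    obtain ⟨h1, h2, h3⟩ := hρ v hv
    exact hOrdr adj (natG G) f' n (ρ v) hadj hlt hf' h1 h3
  have hgood : ∀ v, v < n → ∃ l, Good (natG G) (52 * s) (ordO adj n (ρ v)).toFinset l := by
    intro v hv
    obtain ⟨h1, h2⟩ := hall v hv
    obtain ⟨h3, _⟩ := hρ v hv
    refine hOnec adj (natG G) (ordO adj n (ρ v)) s hadj (hNdp adj n (ρ v) h3).1 ?_ h2 hs ?_
    · intro h4
      have h5 := (h1 (ρ v)).2 (SimpleGraph.Reachable.refl _)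
      rw [h4] at h5
      exact absurd h5 (List.not_mem_nil)
    · unfold sucA at hsuc
      rw [Bool.and_eq_false_iff] at hsuc
      rcases hsuc with h4 | h4
      · rw [decide_eq_false_iff_not] at h4
        exact absurd hs h4
      · rw [List.any_eq_false] at h4
        have h5 := h4 (ρ v) (List.mem_range.2 h3)
        rw [h2, Bool.true_and] at h5
        cases h6 : sucO adj (ordO adj n (ρ v)) s with
        | false => rfl
        | true => exact absurd h6 h5
  set I := (Finset.range n).image ρ with hI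
  have hbU : I.biUnion (fun a => (ordO adj n a).toFinset) = Finset.range n := by
    ext w
    rw [Finset.mem_biUnion, Finset.mem_range]
    constructor
    · rintro ⟨a, ha, hw⟩
      obtain ⟨v, hv, rfl⟩ := Finset.mem_image.1 ha
      have hv' := Finset.mem_range.1 hv
      exact (hNdp adj n (ρ v) (hρ v hv').1).2 w (List.mem_toFinset.1 hw)
    · intro hw
      refine ⟨ρ w, Finset.mem_image.2 ⟨w, Finset.mem_range.2 hw, rfl⟩, ?_⟩
      rw [List.mem_toFinset, (hall w hw).1]
      exact (hρ w hw).2.1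
  refine ⟨fun _ => 0, ?_⟩
  rw [← hbU]
  refine hCompU ℕ ℕ (natG G) (52 * s) I (fun a => (ordO adj n a).toFinset) (by omega) ?_ ?_ ?_
  · exact ⟨ρ 0, Finset.mem_image.2 ⟨0, Finset.mem_range.2 (by omega), rfl⟩⟩
  · intro i hi j hj hij
    obtain ⟨v, hv, rfl⟩ := Finset.mem_image.1 hi
    obtain ⟨w, hw, rfl⟩ := Finset.mem_image.1 hj
    have hv' := Finset.mem_range.1 hv
    have hw' := Finset.mem_range.1 hw
    have key : ∀ x y, x ∈ ordO adj n (ρ v) → y ∈ ordO adj n (ρ w) →
        ¬ (natG G).Reachable x y := by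
      intro x y hx hy hxy
      rw [(hall v hv').1] at hx
      rw [(hall w hw').1] at hy
      have h1 : (natG G).Reachable v w :=
        ((hρ v hv').2.1.symm.trans hx).trans (hxy.trans (hy.symm.trans (hρ w hw').2.1))
      exact hij (hρ2 v w h1)
    refine ⟨?_, ?_⟩
    · rw [Finset.disjoint_left]
      intro x hx hy
      exact key x x (List.mem_toFinset.1 hx) (List.mem_toFinset.1 hy)
        (SimpleGraph.Reachable.refl _)
    · intro x hx y hy hxy
      exact key x y (List.mem_toFinset.1 hx) (List.mem_toFinset.1 hy) hxy.reachable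
  · intro i hi
    obtain ⟨v, hv, rfl⟩ := Finset.mem_image.1 hi
    exact hgood v (Finset.mem_range.1 hv)

end Pool.Agent.Lib.MP_0b43f8_lc.Grid
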