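import Pool.Agent.Lib.MP_0b43f8_lc.Correct
import Pool.Agent.Lib.MP_0b43f8_lc.TM
import Pool.Agent.Lib.MP_0b43f8_lc.Grid.Str16
import Pool.Agent.Lib.MP_0b43f8_lc.Grid.Pos16
import Pool.Agent.Lib.MP_0b43f8_lc.Grid.Cls16
import Pool.Agent.Lib.MP_0b43f8_lc.Grid.Cut1
import Pool.Agent.Lib.MP_0b43f8_lc.Grid.Col66
import Pool.Agent.Lib.MP_0b43f8_lc.Grid.Swp66
import Pool.Agent.Lib.MP_0b43f8_lc.Grid.Chn66
import Pool.Agent.Lib.MP_0b43f8_lc.Grid.Low36
import Pool.Agent.Lib.MP_0b43f8_lc.Grid.Ordr75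
import Pool.Agent.Lib.MP_0b43f8_lc.Grid.GG77
import Pool.Agent.Lib.MP_0b43f8_lc.Grid.Lowo77
import Pool.Agent.Lib.MP_0b43f8_lc.Grid.Apx77
import Pool.Agent.Lib.MP_0b43f8_lc.Grid.Onec1
import Pool.Agent.Lib.MP_0b43f8_lc.Grid.UpA1
import Pool.Agent.Lib.MP_0b43f8_lc.Grid.PTG52

set_option autoImplicit false

/-!
# Clique-width of unit interval graphs up to a constant factor: assembly
-/

namespace Pool.Agent.Lib.MP_0b43f8_lc.Grid

open Pool.Agent.Lib.MP_0b43f8_lc Pool.Agent.Lib.PT

theorem onec : StOnec :=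
  stOnec_1 stPos_16 stCut_1 (stChn_66 (stSwp_66 stCls_16 stCol_66)) stLin stRestr stEmb

theorem upA : StUpA :=
  stUpA_1 stNF1 stNF2 stEmb stCompU onec Ordr75.stOrdr_75 stNdp_77

theorem loA : StLoA := stLoA_77 (stLowo_77 stStr_16 stEmbP_16 stPos_16) stNdp_77

theorem apx : StApx := stApx_77 upA loA stCwp_36 stGG_77

/-- The number computed by the algorithm. -/
def numF (w : List Bool) : ℕ :=
  outN (adjM (w.idxOf false) (w.drop (w.idxOf false + 1))) (w.idxOf false)

/-- The algorithm: the result in unary. -/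
def algF (w : List Bool) : List Bool := List.replicate (numF w) true

theorem algF_input {n : ℕ} (G : SimpleGraph (Fin n)) :
    algF (input G) = List.replicate (outN (adjM n (matrix G)) n) true := by
  unfold algF numF input
  rw [idxOf_unary, drop_unary]

/-- Parsing. -/
def parF (w : List Bool) : ℕ × List Bool := (w.idxOf false, w.drop (w.idxOf false + 1))

theorem ptime_parF : PTime parF := by
  have h1 : PTime fun w : List Bool => w.idxOf false :=
    PTime.idxOf PTime.id (PTime.const false)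
  have h2 : PTime fun w : List Bool => w.drop (w.idxOf false + 1) := by
    fun_prop
  exact h1.pair h2

theorem ptime_numF : PTime numF :=
  (PTime.comp (f := fun p : ℕ × List Bool => outN (adjM p.1 p.2) p.1) (g := parF) stPTG_52
    ptime_parF).of_eq fun _ => rfl

theorem ptime_algF : PTime algF := by
  unfold algF
  exact PTime.replicate ptime_numF (PTime.const true)

end Pool.Agent.Lib.MP_0b43f8_lc.Grid
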